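import Pool.Agent.Q36.EH.Defs

/-!
# Basic facts: the semilattice of projections, relation algebras, words, reversal
-/

universe u v w

namespace Q36.EH

section General
variable {S : Type u} [EhresmannMonoid S]

theorem pl_one : pl (1 : S) = 1 := by
  have := pl_mul_self (1 : S)
  rwa [mul_one] at this

theorem st_one : st (1 : S) = 1 := by
  have := mul_st_self (1 : S)
  rwa [one_mul] at this

theorem pl_pl (x : S) : pl (pl x) = pl x := by
  have := pl_pl_mul x (1 : S)
  rwa [mul_one, pl_one, mul_one] at this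

theorem st_st (x : S) : st (st x) = st x := by
  have := st_mul_st (1 : S) x
  rwa [one_mul, st_one, one_mul] at this

theorem pl_idem (x : S) : pl x * pl x = pl x := by
  have := pl_pl_mul x x
  rw [pl_mul_self] at this
  exact this.symm

variable (S) in
/-- The projections of an Ehresmann monoid. -/
def Proj : Type u := {e : S // pl e = e}

instance : CoeOut (Proj S) S := ⟨Subtype.val⟩

@[ext] theorem Proj.ext {e f : Proj S} (h : (e : S) = f) : e = f := Subtype.ext h

theorem Proj.pl_eq (e : Proj S) : pl (e : S) = e := e.2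

theorem Proj.st_eq (e : Proj S) : st (e : S) = e := by
  have := st_pl (e : S)
  rwa [e.pl_eq] at this

theorem Proj.idem (e : Proj S) : (e : S) * e = e := by
  have := pl_idem (e : S)
  rwa [e.pl_eq] at this

theorem Proj.comm (e f : Proj S) : (e : S) * f = f * e := by
  have := pl_comm (e : S) f
  rwa [e.pl_eq, f.pl_eq] at this

theorem Proj.mul_mem (e f : Proj S) : pl ((e : S) * f) = e * f := by
  have := pl_pl_mul (e : S) f
  rwa [e.pl_eq, f.pl_eq] at this

instance : SemilatticeInf (Proj S) where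
  le e f := (e : S) * f = e
  le_refl e := e.idem
  le_trans e f g h h' := by
    change (e : S) * g = e
    calc (e : S) * g = e * f * g := by rw [show (e : S) * f = e from h]
      _ = e * (f * g) := mul_assoc _ _ _
      _ = e := by rw [show (f : S) * g = f from h', show (e : S) * f = e from h]
  le_antisymm e f h h' := by
    apply Proj.ext
    calc (e : S) = e * f := (show (e : S) * f = e from h).symm
      _ = f * e := e.comm f
      _ = f := h'
  inf e f := ⟨e * f, e.mul_mem f⟩
  inf_le_left e f := by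
    change (e : S) * f * e = e * f
    rw [mul_assoc, f.comm e, ← mul_assoc, e.idem]
  inf_le_right e f := by
    change (e : S) * f * f = e * f
    rw [mul_assoc, f.idem]
  le_inf e f g h h' := by
    change (e : S) * (f * g) = e
    rw [← mul_assoc, show (e : S) * f = e from h, show (e : S) * g = e from h']

instance : OrderTop (Proj S) where
  top := ⟨1, pl_one⟩
  le_top e := by
    change (e : S) * 1 = e
    rw [mul_one]

@[simp] theorem Proj.coe_inf (e f : Proj S) : ((e ⊓ f : Proj S) : S) = e * f := rfl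
@[simp] theorem Proj.coe_top : ((⊤ : Proj S) : S) = 1 := rfl

theorem Proj.le_iff {e f : Proj S} : e ≤ f ↔ (e : S) * f = e := Iff.rfl

theorem Proj.le_iff' {e f : Proj S} : e ≤ f ↔ (f : S) * e = e := by
  rw [Proj.le_iff, e.comm f]

/-- `x⁺` as a projection. -/
def P (a : S) : Proj S := ⟨pl a, pl_pl a⟩
/-- `x*` as a projection. -/
def T (a : S) : Proj S := ⟨st a, pl_st a⟩

theorem coe_P (a : S) : ((P a : Proj S) : S) = pl a := rfl
theorem coe_T (a : S) : ((T a : Proj S) : S) = st a := rfl

@[simp] theorem P_coe (e : Proj S) : P (e : S) = e := Proj.ext e.pl_eq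
@[simp] theorem T_coe (e : Proj S) : T (e : S) = e := Proj.ext e.st_eq

theorem P_mul_self (a : S) : (P a : S) * a = a := pl_mul_self a
theorem mul_T_self (a : S) : a * (T a : S) = a := mul_st_self a

@[simp] theorem P_one : P (1 : S) = ⊤ := Proj.ext pl_one
@[simp] theorem T_one : T (1 : S) = ⊤ := Proj.ext st_one

theorem P_coe_mul (e : Proj S) (b : S) : P ((e : S) * b) = e ⊓ P b := by
  apply Proj.ext
  have := pl_pl_mul (e : S) b
  rw [e.pl_eq] at this
  exact this

theorem T_mul_coe (b : S) (e : Proj S) : T (b * (e : S)) = T b ⊓ e := by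
  apply Proj.ext
  have := st_mul_st b (e : S)
  rw [e.st_eq] at this
  exact this

theorem P_mul (a b : S) : P (a * b) = P (a * (P b : S)) := Proj.ext (pl_mul a b)
theorem T_mul (a b : S) : T (a * b) = T ((T a : S) * b) := Proj.ext (st_mul a b)

theorem le_P_iff {e : Proj S} {a : S} : e ≤ P a ↔ P ((e : S) * a) = e := by
  rw [P_coe_mul, inf_eq_left]

/-- `e ≤ a⁺` and `e` absorbs. -/
theorem mul_eq_of_P_le {e : Proj S} {a : S} (h : P a ≤ e) : (e : S) * a = a := by
  have h1 : (e : S) * (P a : S) = P a := Proj.le_iff'.1 h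
  calc (e : S) * a = e * ((P a : S) * a) := by rw [P_mul_self]
    _ = (e * (P a : S)) * a := (mul_assoc _ _ _).symm
    _ = a := by rw [h1, P_mul_self]

theorem mul_eq_of_T_le {e : Proj S} {a : S} (h : T a ≤ e) : a * (e : S) = a := by
  have h1 : (T a : S) * (e : S) = T a := h
  calc a * (e : S) = (a * (T a : S)) * e := by rw [mul_T_self]
    _ = a * ((T a : S) * e) := mul_assoc _ _ _
    _ = a := by rw [h1, mul_T_self]

theorem T_le_of_mul_eq {e : Proj S} {a : S} (h : a * (e : S) = a) : T a ≤ e := by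
  have := T_mul_coe a e
  rw [h] at this
  exact inf_eq_left.1 this.symm

theorem P_le_of_mul_eq {e : Proj S} {a : S} (h : (e : S) * a = a) : P a ≤ e := by
  have := P_coe_mul e a
  rw [h] at this
  exact inf_eq_right.1 this.symm

theorem P_mul_le (a b : S) : P (a * b) ≤ P a := by
  apply P_le_of_mul_eq
  rw [← mul_assoc, P_mul_self]

theorem T_mul_le (a b : S) : T (a * b) ≤ T b := by
  apply T_le_of_mul_eq
  rw [mul_assoc, mul_T_self]

theorem P_mono (a : S) {e f : Proj S} (h : e ≤ f) : P (a * (e : S)) ≤ P (a * (f : S)) := by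
  have h1 : (f : S) * e = e := Proj.le_iff'.1 h
  have := P_mul_le (a * (f : S)) (e : S)
  rwa [mul_assoc, h1] at this

theorem T_mono (a : S) {e f : Proj S} (h : e ≤ f) : T ((e : S) * a) ≤ T ((f : S) * a) := by
  have h1 : (e : S) * f = e := h
  have := T_mul_le (e : S) ((f : S) * a)
  rwa [← mul_assoc, h1] at this

/-- composition of `P`-bounds -/
theorem le_P_comp {e f g : Proj S} {b c : S} (h : e ≤ P (b * (f : S)))
    (h' : f ≤ P (c * (g : S))) : e ≤ P (b * c * (g : S)) := by
  rw [mul_assoc, P_mul]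
  exact h.trans (P_mono b h')

theorem le_T_comp {e f g : Proj S} {b c : S} (h : f ≤ T ((e : S) * b))
    (h' : g ≤ T ((f : S) * c)) : g ≤ T ((e : S) * (b * c)) := by
  rw [← mul_assoc, T_mul]
  exact h'.trans (T_mono c h)

end General

/-! ### Relation algebras -/

/-- Binary relations on `V`. -/
def Rel (V : Type v) : Type v := V → V → Prop

instance (V : Type v) : EhresmannMonoid (Rel V) where
  mul R Q := fun a c => ∃ b, R a b ∧ Q b c
  one := fun a b => a = b
  mul_assoc R Q T := by
    funext a d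
    apply propext
    constructor
    · rintro ⟨c, ⟨b, h1, h2⟩, h3⟩
      exact ⟨b, h1, c, h2, h3⟩
    · rintro ⟨b, h1, c, h2, h3⟩
      exact ⟨c, ⟨b, h1, h2⟩, h3⟩
  one_mul R := by
    funext a b
    apply propext
    constructor
    · rintro ⟨c, h1, h2⟩
      cases h1
      exact h2
    · intro h
      exact ⟨a, rfl, h⟩
  mul_one R := by
    funext a b
    apply propext
    constructor
    · rintro ⟨c, h1, h2⟩
      cases h2
      exact h1
    · intro h
      exact ⟨b, h, rfl⟩
  pl R := fun a b => a = b ∧ ∃ c, R a c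
  st R := fun a b => a = b ∧ ∃ c, R c a
  pl_mul_self R := by
    funext a b
    apply propext
    constructor
    · rintro ⟨c, ⟨h1, _⟩, h2⟩
      cases h1
      exact h2
    · intro h
      exact ⟨a, ⟨rfl, b, h⟩, h⟩
  pl_comm R Q := by
    funext a b
    apply propext
    constructor
    · rintro ⟨c, ⟨h1, h2⟩, h3, h4⟩
      cases h1
      cases h3
      exact ⟨a, ⟨rfl, h4⟩, rfl, h2⟩
    · rintro ⟨c, ⟨h1, h2⟩, h3, h4⟩
      cases h1
      cases h3
      exact ⟨a, ⟨rfl, h4⟩, rfl, h2⟩
  pl_pl_mul R Q := by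
    funext a b
    apply propext
    constructor
    · rintro ⟨h1, c, d, ⟨h2, h3⟩, h4⟩
      cases h1
      cases h2
      exact ⟨a, ⟨rfl, h3⟩, rfl, c, h4⟩
    · rintro ⟨c, ⟨h1, h2⟩, h3, d, h4⟩
      cases h1
      cases h3
      exact ⟨rfl, d, a, ⟨rfl, h2⟩, h4⟩
  pl_mul R Q := by
    funext a b
    apply propext
    constructor
    · rintro ⟨h1, c, d, h2, h3⟩
      exact ⟨h1, d, d, h2, rfl, c, h3⟩
    · rintro ⟨h1, c, d, h2, h3, e, h4⟩
      exact ⟨h1, e, d, h2, h4⟩
  mul_st_self R := by
    funext a b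
    apply propext
    constructor
    · rintro ⟨c, h1, h2, _⟩
      cases h2
      exact h1
    · intro h
      exact ⟨b, h, rfl, a, h⟩
  st_comm R Q := by
    funext a b
    apply propext
    constructor
    · rintro ⟨c, ⟨h1, h2⟩, h3, h4⟩
      cases h1
      cases h3
      exact ⟨a, ⟨rfl, h4⟩, rfl, h2⟩
    · rintro ⟨c, ⟨h1, h2⟩, h3, h4⟩
      cases h1
      cases h3
      exact ⟨a, ⟨rfl, h4⟩, rfl, h2⟩
  st_mul_st R Q := by
    funext a b
    apply propext
    constructor
    · rintro ⟨h1, c, d, h2, h3, h4⟩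
      cases h1
      cases h3
      exact ⟨a, ⟨rfl, c, h2⟩, rfl, h4⟩
    · rintro ⟨c, ⟨h1, d, h2⟩, h3, h4⟩
      cases h1
      cases h3
      exact ⟨rfl, d, a, h2, rfl, h4⟩
  st_mul R Q := by
    funext a b
    apply propext
    constructor
    · rintro ⟨h1, c, d, h2, h3⟩
      exact ⟨h1, d, d, ⟨rfl, c, h2⟩, h3⟩
    · rintro ⟨h1, c, d, ⟨_, e, h4⟩, h3⟩
      exact ⟨h1, e, d, by rename_i h2; cases h2; exact h4, h3⟩
  st_pl R := by
    funext a b
    apply propext
    constructor
    · rintro ⟨h1, c, h2, h3⟩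
      cases h2
      exact ⟨h1, h3⟩
    · rintro ⟨h1, h2⟩
      exact ⟨h1, a, rfl, h2⟩
  pl_st R := by
    funext a b
    apply propext
    constructor
    · rintro ⟨h1, c, h2, h3⟩
      exact ⟨h1, h3⟩
    · rintro ⟨h1, h2⟩
      exact ⟨h1, a, rfl, h2⟩

namespace FE
variable {X : Type u} {V : Type v}

/-- The relation denoted by an element of `FE X` in a labelled graph. -/
def rel (g : X → V → V → Prop) (a : FE X) : V → V → Prop := lift (T := Rel V) g a

variable (g : X → V → V → Prop)

theorem rel_gen (x : X) (v w : V) : rel g (gen x) v w ↔ g x v w := Iff.rfl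
theorem rel_one (v w : V) : rel g 1 v w ↔ v = w := Iff.rfl
theorem rel_mul (a b : FE X) (v w : V) :
    rel g (a * b) v w ↔ ∃ z, rel g a v z ∧ rel g b z w := by
  rw [rel, lift_mul]
  exact Iff.rfl
theorem rel_pl (a : FE X) (v w : V) : rel g (pl a) v w ↔ v = w ∧ ∃ z, rel g a v z := by
  rw [rel, lift_pl]
  exact Iff.rfl
theorem rel_st (a : FE X) (v w : V) : rel g (st a) v w ↔ v = w ∧ ∃ z, rel g a z v := by
  rw [rel, lift_st]
  exact Iff.rfl

/-! ### General facts on relations denoted in graphs -/

theorem rel_hom {W : Type w} {g : X → V → V → Prop} {g' : X → W → W → Prop} (π : V → W)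
    (h : ∀ x v w, g x v w → g' x (π v) (π w)) (a : FE X) :
    ∀ v w, rel g a v w → rel g' a (π v) (π w) := by
  induction a using ind with
  | hvar x => exact h x
  | hone =>
    intro v w hvw
    exact congrArg π hvw
  | hmul a b iha ihb =>
    intro v w hvw
    obtain ⟨z, h1, h2⟩ := (rel_mul g a b v w).1 hvw
    exact (rel_mul g' a b _ _).2 ⟨π z, iha _ _ h1, ihb _ _ h2⟩
  | hpl a ih =>
    intro v w hvw
    obtain ⟨h1, z, h2⟩ := (rel_pl g a v w).1 hvw
    exact (rel_pl g' a _ _).2 ⟨congrArg π h1, π z, ih _ _ h2⟩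
  | hst a ih =>
    intro v w hvw
    obtain ⟨h1, z, h2⟩ := (rel_st g a v w).1 hvw
    exact (rel_st g' a _ _).2 ⟨congrArg π h1, π z, ih _ _ h2⟩

theorem rel_fwd {g : X → V → V → Prop} {A : V → Prop} (h : ∀ x v w, g x v w → A v → A w)
    (a : FE X) : ∀ v w, rel g a v w → A v → A w := by
  induction a using ind with
  | hvar x => exact h x
  | hone =>
    intro v w hvw hv
    cases hvw
    exact hv
  | hmul a b iha ihb =>
    intro v w hvw hv
    obtain ⟨z, h1, h2⟩ := (rel_mul g a b v w).1 hvw
    exact ihb _ _ h2 (iha _ _ h1 hv)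
  | hpl a ih =>
    intro v w hvw hv
    obtain ⟨h1, z, h2⟩ := (rel_pl g a v w).1 hvw
    cases h1
    exact hv
  | hst a ih =>
    intro v w hvw hv
    obtain ⟨h1, z, h2⟩ := (rel_st g a v w).1 hvw
    cases h1
    exact hv

theorem rel_bwd {g : X → V → V → Prop} {A : V → Prop} (h : ∀ x v w, g x v w → A w → A v)
    (a : FE X) : ∀ v w, rel g a v w → A w → A v := by
  induction a using ind with
  | hvar x => exact h x
  | hone =>
    intro v w hvw hv
    cases hvw
    exact hv
  | hmul a b iha ihb =>
    intro v w hvw hv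
    obtain ⟨z, h1, h2⟩ := (rel_mul g a b v w).1 hvw
    exact iha _ _ h1 (ihb _ _ h2 hv)
  | hpl a ih =>
    intro v w hvw hv
    obtain ⟨h1, z, h2⟩ := (rel_pl g a v w).1 hvw
    cases h1
    exact hv
  | hst a ih =>
    intro v w hvw hv
    obtain ⟨h1, z, h2⟩ := (rel_st g a v w).1 hvw
    cases h1
    exact hv

/-- Lifting of paths along a map of graphs which lifts edges forward and backward. -/
theorem rel_lift {W : Type w} {g : X → V → V → Prop} {g' : X → W → W → Prop} (π : V → W)
    (hf : ∀ x v w', g' x (π v) w' → ∃ w, π w = w' ∧ g x v w)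
    (hb : ∀ x w v', g' x v' (π w) → ∃ v, π v = v' ∧ g x v w) (a : FE X) :
    (∀ v w', rel g' a (π v) w' → ∃ w, π w = w' ∧ rel g a v w) ∧
    (∀ w v', rel g' a v' (π w) → ∃ v, π v = v' ∧ rel g a v w) := by
  induction a using ind with
  | hvar x => exact ⟨hf x, hb x⟩
  | hone => exact ⟨fun v w' h => ⟨v, h, rfl⟩, fun w v' h => ⟨w, h.symm, rfl⟩⟩
  | hmul a b iha ihb =>
    constructor
    · intro v w' h
      obtain ⟨z, h1, h2⟩ := (rel_mul g' a b _ _).1 h
      obtain ⟨y, rfl, h3⟩ := iha.1 v z h1
      obtain ⟨w, rfl, h4⟩ := ihb.1 y w' h2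
      exact ⟨w, rfl, (rel_mul g a b _ _).2 ⟨y, h3, h4⟩⟩
    · intro w v' h
      obtain ⟨z, h1, h2⟩ := (rel_mul g' a b _ _).1 h
      obtain ⟨y, rfl, h3⟩ := ihb.2 w z h2
      obtain ⟨v, rfl, h4⟩ := iha.2 y v' h1
      exact ⟨v, rfl, (rel_mul g a b _ _).2 ⟨y, h4, h3⟩⟩
  | hpl a ih =>
    constructor
    · intro v w' h
      obtain ⟨h1, z, h2⟩ := (rel_pl g' a _ _).1 h
      obtain ⟨y, _, h3⟩ := ih.1 v z h2
      exact ⟨v, h1, (rel_pl g a _ _).2 ⟨rfl, y, h3⟩⟩
    · intro w v' h
      obtain ⟨h1, z, h2⟩ := (rel_pl g' a _ _).1 h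
      rw [h1] at h2
      obtain ⟨y, _, h3⟩ := ih.1 w z h2
      exact ⟨w, h1.symm, (rel_pl g a _ _).2 ⟨rfl, y, h3⟩⟩
  | hst a ih =>
    constructor
    · intro v w' h
      obtain ⟨h1, z, h2⟩ := (rel_st g' a _ _).1 h
      obtain ⟨y, _, h3⟩ := ih.2 v z h2
      exact ⟨v, h1, (rel_st g a _ _).2 ⟨rfl, y, h3⟩⟩
    · intro w v' h
      obtain ⟨h1, z, h2⟩ := (rel_st g' a _ _).1 h
      rw [h1] at h2
      obtain ⟨y, _, h3⟩ := ih.2 w z h2
      exact ⟨w, h1.symm, (rel_st g a _ _).2 ⟨rfl, y, h3⟩⟩

end FE

/-! ### Words -/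

/-- Words: the free monoid, as an Ehresmann monoid with trivial unary operations. -/
def Wd (X : Type u) : Type u := List X

instance (X : Type u) : EhresmannMonoid (Wd X) where
  mul a b := (List.append a b : List X)
  one := ([] : List X)
  mul_assoc := List.append_assoc
  one_mul := List.nil_append
  mul_one := List.append_nil
  pl _ := ([] : List X)
  st _ := ([] : List X)
  pl_mul_self := List.nil_append
  pl_comm _ _ := rfl
  pl_pl_mul _ _ := rfl
  pl_mul _ _ := rfl
  mul_st_self := List.append_nil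
  st_comm _ _ := rfl
  st_mul_st _ _ := rfl
  st_mul _ _ := rfl
  st_pl _ := rfl
  pl_st _ := rfl

namespace FE
variable {X : Type u}

/-- The word of an element of `FE X`. -/
def word (a : FE X) : List X := lift (T := Wd X) (fun x => ([x] : List X)) a

@[simp] theorem word_gen (x : X) : word (gen x) = [x] := rfl
@[simp] theorem word_one : word (1 : FE X) = [] := rfl
@[simp] theorem word_mul (a b : FE X) : word (a * b) = word a ++ word b := by
  rw [word, lift_mul]
  rfl
@[simp] theorem word_pl (a : FE X) : word (pl a) = [] := by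
  rw [word, lift_pl]
  rfl
@[simp] theorem word_st (a : FE X) : word (st a) = [] := by
  rw [word, lift_st]
  rfl
@[simp] theorem word_proj (e : Proj (FE X)) : word (e : FE X) = [] := by
  rw [← e.pl_eq, word_pl]

/-- The length of an element. -/
def len (a : FE X) : ℕ := (word a).length

@[simp] theorem len_gen (x : X) : len (gen x) = 1 := rfl
@[simp] theorem len_one : len (1 : FE X) = 0 := rfl
@[simp] theorem len_mul (a b : FE X) : len (a * b) = len a + len b := by
  simp [len]
@[simp] theorem len_pl (a : FE X) : len (pl a) = 0 := by simp [len]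
@[simp] theorem len_st (a : FE X) : len (st a) = 0 := by simp [len]
@[simp] theorem len_proj (e : Proj (FE X)) : len (e : FE X) = 0 := by simp [len]

theorem rel_height {V : Type v} {g : X → V → V → Prop} (ht : V → ℤ)
    (h : ∀ x v w, g x v w → ht w = ht v + 1) (a : FE X) :
    ∀ v w, rel g a v w → ht w = ht v + len a := by
  induction a using ind with
  | hvar x =>
    intro v w hvw
    simpa using h x v w hvw
  | hone =>
    intro v w hvw
    cases hvw
    simp
  | hmul a b iha ihb =>
    intro v w hvw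
    obtain ⟨z, h1, h2⟩ := (rel_mul g a b v w).1 hvw
    rw [ihb _ _ h2, iha _ _ h1, len_mul]
    push_cast
    ring
  | hpl a ih =>
    intro v w hvw
    obtain ⟨h1, z, h2⟩ := (rel_pl g a v w).1 hvw
    cases h1
    simp
  | hst a ih =>
    intro v w hvw
    obtain ⟨h1, z, h2⟩ := (rel_st g a v w).1 hvw
    cases h1
    simp

end FE

/-! ### Reversal -/

open MulOpposite in
instance (S : Type u) [EhresmannMonoid S] : EhresmannMonoid Sᵐᵒᵖ where
  pl a := op (st a.unop)
  st a := op (pl a.unop)
  pl_mul_self a := unop_injective (by simp [mul_st_self])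
  pl_comm a b := unop_injective (by simp [st_comm])
  pl_pl_mul a b := unop_injective (by simp [st_mul_st])
  pl_mul a b := unop_injective (by simpa using st_mul b.unop a.unop)
  mul_st_self a := unop_injective (by simp [pl_mul_self])
  st_comm a b := unop_injective (by simp [pl_comm])
  st_mul_st a b := unop_injective (by simp [pl_pl_mul])
  st_mul a b := unop_injective (by simpa using pl_mul b.unop a.unop)
  st_pl a := unop_injective (by simp [pl_st])
  pl_st a := unop_injective (by simp [st_pl])

namespace FE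
variable {X : Type u}

open MulOpposite in
/-- The reversal anti-automorphism. -/
def rev (a : FE X) : FE X := (lift (T := (FE X)ᵐᵒᵖ) (fun x => op (gen x)) a).unop

@[simp] theorem rev_gen (x : X) : rev (gen x) = gen x := rfl
@[simp] theorem rev_one : rev (1 : FE X) = 1 := rfl
@[simp] theorem rev_mul (a b : FE X) : rev (a * b) = rev b * rev a := by
  rw [rev, lift_mul]
  rfl
@[simp] theorem rev_pl (a : FE X) : rev (pl a) = st (rev a) := by
  rw [rev, lift_pl]
  rfl
@[simp] theorem rev_st (a : FE X) : rev (st a) = pl (rev a) := by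
  rw [rev, lift_st]
  rfl

@[simp] theorem rev_rev (a : FE X) : rev (rev a) = a := by
  induction a using ind with
  | hvar x => simp
  | hone => simp
  | hmul a b iha ihb => simp [iha, ihb]
  | hpl a ih => simp [ih]
  | hst a ih => simp [ih]

@[simp] theorem len_rev (a : FE X) : len (rev a) = len a := by
  induction a using ind with
  | hvar x => simp
  | hone => simp
  | hmul a b iha ihb => simp [iha, ihb, add_comm]
  | hpl a ih => simp
  | hst a ih => simp

end FE

end Q36.EH
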