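import Pool.Agent.Q36.EH.Basic

/-!
# The canonical graph and uniqueness of saturated factorizations
-/

universe u v w

namespace Q36.EH.FE

variable {X : Type u}

/-- The canonical graph on projections. -/
def C (x : X) (e f : Proj (FE X)) : Prop :=
  e ≤ P (gen x * (f : FE X)) ∧ f ≤ T ((e : FE X) * gen x)

theorem C_P (a : FE X) : ∀ e f : Proj (FE X), rel C a e f →
    e ≤ P (a * (f : FE X)) ∧ f ≤ T ((e : FE X) * a) := by
  induction a using ind with
  | hvar x => exact fun e f h => h
  | hone =>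
    intro e f h
    cases h
    rw [one_mul, mul_one, P_coe, T_coe]
    exact ⟨le_refl _, le_refl _⟩
  | hmul a b iha ihb =>
    intro e f h
    obtain ⟨z, h1, h2⟩ := (rel_mul C a b e f).1 h
    exact ⟨le_P_comp (iha _ _ h1).1 (ihb _ _ h2).1, le_T_comp (iha _ _ h1).2 (ihb _ _ h2).2⟩
  | hpl a ih =>
    intro e f h
    obtain ⟨h1, z, h2⟩ := (rel_pl C a e f).1 h
    cases h1
    have h3 : e ≤ P a := (ih _ _ h2).1.trans (P_mul_le _ _)
    rw [← coe_P, ← Proj.coe_inf, ← Proj.coe_inf, P_coe, T_coe]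
    exact ⟨le_inf h3 le_rfl, le_inf le_rfl h3⟩
  | hst a ih =>
    intro e f h
    obtain ⟨h1, z, h2⟩ := (rel_st C a e f).1 h
    cases h1
    have h3 : e ≤ T a := (ih _ _ h2).2.trans (T_mul_le _ _)
    rw [← coe_T, ← Proj.coe_inf, ← Proj.coe_inf, P_coe, T_coe]
    exact ⟨le_inf h3 le_rfl, le_inf le_rfl h3⟩

theorem edge_of_le {x : X} {e f : Proj (FE X)} (h : e ≤ P (gen x * (f : FE X))) :
    C x e (T ((e : FE X) * gen x) ⊓ f) := by
  refine ⟨?_, inf_le_left⟩
  have h1 : P ((e : FE X) * (gen x * (f : FE X))) = e := le_P_iff.1 h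
  have h2 : (e : FE X) * (gen x * (f : FE X)) =
      e * (gen x * ((T ((e : FE X) * gen x) ⊓ f : Proj (FE X)) : FE X)) := by
    rw [Proj.coe_inf, ← mul_assoc, ← mul_assoc, ← mul_assoc, mul_T_self]
  rw [h2] at h1
  exact le_P_iff.2 h1

theorem edge_of_le' {x : X} {e f : Proj (FE X)} (h : f ≤ T ((e : FE X) * gen x)) :
    C x (e ⊓ P (gen x * (f : FE X))) f := by
  refine ⟨inf_le_right, ?_⟩
  have h1 : T ((e : FE X) * gen x * (f : FE X)) = f := by
    rw [T_mul_coe]
    exact inf_eq_right.2 h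
  have h2 : (e : FE X) * gen x * (f : FE X) =
      ((e ⊓ P (gen x * (f : FE X)) : Proj (FE X)) : FE X) * gen x * f := by
    rw [Proj.coe_inf, mul_assoc, mul_assoc, mul_assoc, P_mul_self]
  rw [h2, T_mul_coe] at h1
  exact inf_eq_right.1 h1

theorem C_Q (a : FE X) :
    (∀ e f : Proj (FE X), e ≤ P (a * (f : FE X)) → ∃ g, g ≤ f ∧ rel C a e g) ∧
    (∀ e f : Proj (FE X), f ≤ T ((e : FE X) * a) → ∃ g, g ≤ e ∧ rel C a g f) := by
  induction a using ind with
  | hvar x =>
    exact ⟨fun e f h => ⟨_, inf_le_right, edge_of_le h⟩,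
      fun e f h => ⟨_, inf_le_left, edge_of_le' h⟩⟩
  | hone =>
    constructor
    · intro e f h
      rw [one_mul, P_coe] at h
      exact ⟨e, h, rfl⟩
    · intro e f h
      rw [mul_one, T_coe] at h
      exact ⟨f, h, rfl⟩
  | hmul a b iha ihb =>
    constructor
    · intro e f h
      rw [mul_assoc, P_mul] at h
      obtain ⟨g, h1, h2⟩ := iha.1 _ _ h
      obtain ⟨g', h3, h4⟩ := ihb.1 _ _ h1
      exact ⟨g', h3, (rel_mul C a b _ _).2 ⟨g, h2, h4⟩⟩
    · intro e f h
      rw [← mul_assoc, T_mul] at h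
      obtain ⟨g, h1, h2⟩ := ihb.2 _ _ h
      obtain ⟨g', h3, h4⟩ := iha.2 _ _ h1
      exact ⟨g', h3, (rel_mul C a b _ _).2 ⟨g, h4, h2⟩⟩
  | hpl a ih =>
    constructor
    · intro e f h
      rw [← coe_P, ← Proj.coe_inf, P_coe] at h
      obtain ⟨g, _, h2⟩ := ih.1 e ⊤ (by
        rw [Proj.coe_top, mul_one]
        exact h.trans inf_le_left)
      exact ⟨e, h.trans inf_le_right, (rel_pl C a _ _).2 ⟨rfl, g, h2⟩⟩
    · intro e f h
      rw [← coe_P, ← Proj.coe_inf, T_coe] at h
      obtain ⟨g, _, h2⟩ := ih.1 f ⊤ (by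
        rw [Proj.coe_top, mul_one]
        exact h.trans inf_le_right)
      exact ⟨f, h.trans inf_le_left, (rel_pl C a _ _).2 ⟨rfl, g, h2⟩⟩
  | hst a ih =>
    constructor
    · intro e f h
      rw [← coe_T, ← Proj.coe_inf, P_coe] at h
      obtain ⟨g, _, h2⟩ := ih.2 ⊤ e (by
        rw [Proj.coe_top, one_mul]
        exact h.trans inf_le_left)
      exact ⟨e, h.trans inf_le_right, (rel_st C a _ _).2 ⟨rfl, g, h2⟩⟩
    · intro e f h
      rw [← coe_T, ← Proj.coe_inf, T_coe] at h
      obtain ⟨g, _, h2⟩ := ih.2 ⊤ f (by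
        rw [Proj.coe_top, one_mul]
        exact h.trans inf_le_right)
      exact ⟨f, h.trans inf_le_left, (rel_st C a _ _).2 ⟨rfl, g, h2⟩⟩

/-! ### The junction graph -/

/-- Vertices of the junction graph: the junction, the in-copy and the out-copy of the canonical
graph with heights. -/
inductive JV (X : Type u) : Type u
  | t : JV X
  | i : ℤ → Proj (FE X) → JV X
  | o : ℤ → Proj (FE X) → JV X

/-- Edges of the junction graph with junction over `e0`. -/
def J (e0 : Proj (FE X)) (x : X) : JV X → JV X → Prop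
  | .i h f, .i h' f' => h' = h + 1 ∧ C x f f'
  | .i h f, .t => h = -1 ∧ C x f e0
  | .t, .o h f => h = 1 ∧ C x e0 f
  | .o h f, .o h' f' => h' = h + 1 ∧ C x f f'
  | _, _ => False

/-- Projection to the canonical graph. -/
def JV.pr (e0 : Proj (FE X)) : JV X → Proj (FE X)
  | .t => e0
  | .i _ f => f
  | .o _ f => f

/-- Height. -/
def JV.ht : JV X → ℤ
  | .t => 0
  | .i h _ => h
  | .o h _ => h

theorem J_lift (e0 : Proj (FE X)) (a : FE X) :
    (∀ v w', rel C a (JV.pr e0 v) w' → ∃ w, JV.pr e0 w = w' ∧ rel (J e0) a v w) ∧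
    (∀ w v', rel C a v' (JV.pr e0 w) → ∃ v, JV.pr e0 v = v' ∧ rel (J e0) a v w) := by
  apply rel_lift
  · intro x v w' h
    cases v with
    | t => exact ⟨.o 1 w', rfl, rfl, h⟩
    | i k f => exact ⟨.i (k + 1) w', rfl, rfl, h⟩
    | o k f => exact ⟨.o (k + 1) w', rfl, rfl, h⟩
  · intro x w v' h
    cases w with
    | t => exact ⟨.i (-1) v', rfl, rfl, h⟩
    | i k f => exact ⟨.i (k - 1) v', rfl, by simp, h⟩
    | o k f => exact ⟨.o (k - 1) v', rfl, by simp, h⟩

theorem J_hom (e0 : Proj (FE X)) (a : FE X) :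
    ∀ v w, rel (J e0) a v w → rel C a (JV.pr e0 v) (JV.pr e0 w) := by
  apply rel_hom
  intro x v w h
  cases v <;> cases w <;> first | exact h.2 | exact h.elim

theorem J_ht (e0 : Proj (FE X)) (a : FE X) :
    ∀ v w, rel (J e0) a v w → JV.ht w = JV.ht v + len a := by
  apply rel_height
  intro x v w h
  cases v <;> cases w <;>
    first
      | exact h.elim
      | (obtain ⟨h1, _⟩ := h; simp [JV.ht, h1])

/-- One half of the uniqueness statement. -/
theorem uniq_le {p q p' q' : FE X} (h : p * q = p' * q') (hl : len p = len p') :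
    T p ⊓ P q ≤ T p' ⊓ P q' := by
  set e0 : Proj (FE X) := T p ⊓ P q with he0
  obtain ⟨f, _, hf⟩ := (C_Q p).2 ⊤ e0 (by
    rw [Proj.coe_top, one_mul]
    exact inf_le_left)
  obtain ⟨f', _, hf'⟩ := (C_Q q).1 e0 ⊤ (by
    rw [Proj.coe_top, mul_one]
    exact inf_le_right)
  obtain ⟨z0, -, hz0⟩ := (J_lift e0 p).2 JV.t f hf
  obtain ⟨z1, -, hz1⟩ := (J_lift e0 q).1 JV.t f' hf'
  have hpq : rel (J e0) (p' * q') z0 z1 := by
    rw [← h]
    exact (rel_mul _ _ _ _ _).2 ⟨_, hz0, hz1⟩
  obtain ⟨z, h1, h2⟩ := (rel_mul _ _ _ _ _).1 hpq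
  have hht : JV.ht z = 0 := by
    have h3 := J_ht e0 p' _ _ h1
    have h4 := J_ht e0 p _ _ hz0
    have h5 : JV.ht (JV.t : JV X) = 0 := rfl
    rw [h5] at h4
    rw [h3, ← hl]
    exact h4.symm
  have hz : z = JV.t := by
    cases z with
    | t => rfl
    | i k e =>
      exfalso
      have hk : k = 0 := hht
      subst hk
      have h3 := rel_fwd (g := J e0) (A := fun z : JV X => ∃ k : ℤ, 0 ≤ k ∧ ∃ f, z = JV.i k f)
        (by
          rintro x v w hvw ⟨k, hk, f, rfl⟩
          cases w with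
          | t =>
            obtain ⟨h4, _⟩ := hvw
            omega
          | i k' f' =>
            obtain ⟨h4, _⟩ := hvw
            exact ⟨k', by omega, f', rfl⟩
          | o k' f' => exact hvw.elim) q' _ _ h2 ⟨0, le_rfl, e, rfl⟩
      have h4 := rel_fwd (g := J e0) (A := fun z : JV X => z = JV.t ∨ ∃ k f, z = JV.o k f)
        (by
          rintro x v w hvw (rfl | ⟨k, f, rfl⟩)
          · cases w with
            | t => exact hvw.elim
            | i k' f' => exact hvw.elim
            | o k' f' => exact Or.inr ⟨k', f', rfl⟩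
          · cases w with
            | t => exact hvw.elim
            | i k' f' => exact hvw.elim
            | o k' f' => exact Or.inr ⟨k', f', rfl⟩) q _ _ hz1 (Or.inl rfl)
      obtain ⟨k, _, f, rfl⟩ := h3
      rcases h4 with h4 | ⟨_, _, h4⟩ <;> cases h4
    | o k e =>
      exfalso
      have hk : k = 0 := hht
      subst hk
      have h3 := rel_bwd (g := J e0) (A := fun z : JV X => ∃ k : ℤ, k ≤ 0 ∧ ∃ f, z = JV.o k f)
        (by
          rintro x v w hvw ⟨k, hk, f, rfl⟩
          cases v with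
          | t =>
            obtain ⟨h4, _⟩ := hvw
            omega
          | i k' f' => exact hvw.elim
          | o k' f' =>
            obtain ⟨h4, _⟩ := hvw
            exact ⟨k', by omega, f', rfl⟩) p' _ _ h1 ⟨0, le_rfl, e, rfl⟩
      have h4 := rel_bwd (g := J e0) (A := fun z : JV X => z = JV.t ∨ ∃ k f, z = JV.i k f)
        (by
          rintro x v w hvw (rfl | ⟨k, f, rfl⟩)
          · cases v with
            | t => exact hvw.elim
            | i k' f' => exact Or.inr ⟨k', f', rfl⟩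
            | o k' f' => exact hvw.elim
          · cases v with
            | t => exact hvw.elim
            | i k' f' => exact Or.inr ⟨k', f', rfl⟩
            | o k' f' => exact hvw.elim) p _ _ hz0 (Or.inl rfl)
      obtain ⟨k, _, f, rfl⟩ := h3
      rcases h4 with h4 | ⟨_, _, h4⟩ <;> cases h4
  subst hz
  have h3 := (C_P p' _ _ (J_hom e0 p' _ _ h1)).2
  have h4 := (C_P q' _ _ (J_hom e0 q' _ _ h2)).1
  exact le_inf (h3.trans (T_mul_le _ _)) (h4.trans (P_mul_le _ _))

theorem uniq {p q p' q' : FE X} (h : p * q = p' * q') (hl : len p = len p') :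
    T p ⊓ P q = T p' ⊓ P q' :=
  le_antisymm (uniq_le h hl) (uniq_le h.symm hl.symm)

/-! ### Expressions -/

/-- The element denoted by an expression `u x₁ v₁ x₂ v₂ …`, with entries evaluated by `φ`. -/
def el {α : Type v} (φ : α → Proj (FE X)) (u : α) : List (X × α) → FE X
  | [] => (φ u : FE X)
  | y :: l => (φ u : FE X) * gen y.1 * el φ y.2 l

section el
variable {α : Type v} (φ ψ : α → Proj (FE X))

theorem el_nil (u : α) : el φ u [] = (φ u : FE X) := rfl
theorem el_cons (u : α) (y : X × α) (l : List (X × α)) :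
    el φ u (y :: l) = (φ u : FE X) * gen y.1 * el φ y.2 l := rfl

theorem head_mul_el (u : α) (l : List (X × α)) : (φ u : FE X) * el φ u l = el φ u l := by
  cases l with
  | nil => exact (φ u).idem
  | cons y l => rw [el_cons, ← mul_assoc, ← mul_assoc, (φ u).idem]

theorem word_el (u : α) (l : List (X × α)) : word (el φ u l) = l.map Prod.fst := by
  induction l generalizing u with
  | nil => simp [el_nil]
  | cons y l ih => simp [el_cons, ih]

end el

theorem exists_el (a : FE X) : ∃ (u : Proj (FE X)) (l : List (X × Proj (FE X))),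
    el id u l = a := by
  induction a using ind with
  | hvar x => exact ⟨⊤, [(x, ⊤)], by simp [el]⟩
  | hone => exact ⟨⊤, [], rfl⟩
  | hmul a b iha ihb =>
    obtain ⟨u, l, rfl⟩ := iha
    obtain ⟨u', l', rfl⟩ := ihb
    induction l generalizing u with
    | nil =>
      refine ⟨u ⊓ u', l', ?_⟩
      rw [el_nil]
      cases l' with
      | nil => rfl
      | cons y l' =>
        rw [el_cons, el_cons, id, id, id, Proj.coe_inf]
        simp only [mul_assoc]
    | cons y l ih =>
      obtain ⟨u'', l'', h⟩ := ih y.2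
      refine ⟨u, (y.1, u'') :: l'', ?_⟩
      change (u : FE X) * gen y.1 * el id u'' l'' =
        (u : FE X) * gen y.1 * el id y.2 l * el id u' l'
      rw [h, ← mul_assoc]
  | hpl a _ => exact ⟨P a, [], rfl⟩
  | hst a _ => exact ⟨T a, [], rfl⟩

/-- Two expressions with the same word as one list. -/
theorem exists_joint : ∀ (l l' : List (X × Proj (FE X))), l.map Prod.fst = l'.map Prod.fst →
    ∀ u u' : Proj (FE X), ∃ l'' : List (X × (Proj (FE X) × Proj (FE X))),
      el Prod.fst (u, u') l'' = el id u l ∧ el Prod.snd (u, u') l'' = el id u' l'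
  | [], [], _, u, u' => ⟨[], rfl, rfl⟩
  | [], _ :: _, h, _, _ => by simp at h
  | _ :: _, [], h, _, _ => by simp at h
  | y :: l, y' :: l', h, u, u' => by
    simp only [List.map_cons, List.cons.injEq] at h
    obtain ⟨l'', h1, h2⟩ := exists_joint l l' h.2 y.2 y'.2
    refine ⟨(y.1, (y.2, y'.2)) :: l'', ?_, ?_⟩
    · rw [el_cons, el_cons, h1]
      rfl
    · rw [el_cons, el_cons, h2]
      change (u' : FE X) * gen y.1 * _ = (u' : FE X) * gen y'.1 * _
      rw [h.1]

/-- The element `p* (el φ u l · r)⁺` is below the entry `ψ u`, and so on at all positions. -/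
def Dom {α : Type v} (φ ψ : α → Proj (FE X)) (r : FE X) : FE X → α → List (X × α) → Prop
  | p, u, [] => T p ⊓ P (el φ u [] * r) ≤ ψ u
  | p, u, y :: l => T p ⊓ P (el φ u (y :: l) * r) ≤ ψ u ∧
      Dom φ ψ r (p * gen y.1 * (φ y.2 : FE X)) y.2 l

theorem Dom.head {α : Type v} {φ ψ : α → Proj (FE X)} {r p : FE X} {u : α}
    {l : List (X × α)} (h : Dom φ ψ r p u l) : T p ⊓ P (el φ u l * r) ≤ ψ u := by
  cases l with
  | nil => exact h
  | cons y l => exact h.1

theorem insert_meet {α : Type v} (φ ψ : α → Proj (FE X)) (r : FE X) (l : List (X × α)) :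
    ∀ (p : FE X) (u : α), p * (φ u : FE X) = p → Dom φ ψ r p u l →
      (T p : FE X) * el φ u l * r = (T p : FE X) * el (fun a => φ a ⊓ ψ a) u l * r := by
  induction l with
  | nil =>
    intro p u hp hD
    have hD' : T p ⊓ P (el φ u [] * r) ≤ ψ u := hD
    rw [← P_coe_mul] at hD'
    have h1 := mul_eq_of_P_le hD'
    rw [el_nil, el_nil]
    rw [el_nil] at h1
    rw [Proj.coe_inf, mul_assoc, ← h1, (φ u).comm (ψ u)]
    rw [← mul_assoc, ← mul_assoc, ← mul_assoc, (ψ u).comm (T p)]
  | cons y l ih =>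
    intro p u hp hD
    obtain ⟨hD1, hD2⟩ := hD
    set w : FE X := el φ y.2 l * r with hw
    set w' : FE X := el (fun a => φ a ⊓ ψ a) y.2 l * r with hw'
    have hTp : (T p : FE X) * (φ u : FE X) = T p := T_le_of_mul_eq hp
    have hyw : (φ y.2 : FE X) * w = w := by
      rw [hw, ← mul_assoc, head_mul_el]
    have hyw' : (φ y.2 : FE X) * w' = w' := by
      have h1 := head_mul_el (fun a => φ a ⊓ ψ a) y.2 l
      rw [hw', ← mul_assoc, ← h1, ← mul_assoc, Proj.coe_inf, ← mul_assoc, (φ y.2).idem]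
    have hIH : (T (p * gen y.1 * (φ y.2 : FE X)) : FE X) * w =
        (T (p * gen y.1 * (φ y.2 : FE X)) : FE X) * w' := by
      have := ih (p * gen y.1 * (φ y.2 : FE X)) y.2 (by rw [mul_assoc, (φ y.2).idem]) hD2
      rw [hw, hw', ← mul_assoc, ← mul_assoc]
      exact this
    rw [T_mul_coe, Proj.coe_inf, mul_assoc, mul_assoc, hyw, hyw'] at hIH
    -- `p* x w = p* x w'`
    have hxx : (T p : FE X) * gen y.1 * (T (p * gen y.1) : FE X) = T p * gen y.1 := by
      rw [T_mul p (gen y.1)]
      exact mul_T_self _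
    have hmain : (T p : FE X) * gen y.1 * w = (T p : FE X) * gen y.1 * w' := by
      rw [← hxx, mul_assoc, hIH, ← mul_assoc]
    have hl : (T p : FE X) * el φ u (y :: l) * r = (T p : FE X) * gen y.1 * w := by
      rw [el_cons, hw]
      rw [← mul_assoc, ← mul_assoc, hTp]
      rw [mul_assoc]
    have hr : (T p : FE X) * el (fun a => φ a ⊓ ψ a) u (y :: l) * r =
        (ψ u : FE X) * ((T p : FE X) * gen y.1 * w') := by
      rw [el_cons, hw', Proj.coe_inf]
      rw [← mul_assoc, ← mul_assoc, ← mul_assoc, hTp, (T p).comm (ψ u)]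
      simp only [mul_assoc]
    have hP : (ψ u : FE X) * ((T p : FE X) * el φ u (y :: l) * r) =
        (T p : FE X) * el φ u (y :: l) * r := by
      apply mul_eq_of_P_le
      rw [mul_assoc, P_coe_mul]
      exact hD1
    rw [hr, ← hmain, ← hl, hP]

/-- Uniqueness gives domination at all positions. -/
theorem dom_of_eq {α : Type v} (φ ψ : α → Proj (FE X)) (r : FE X) (l : List (X × α)) :
    ∀ (p p' : FE X) (u : α), len p = len p' → p' * (ψ u : FE X) = p' →
      p * (φ u : FE X) = p →
      p * (el φ u l * r) = p' * (el ψ u l * r) → Dom φ ψ r p u l := by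
  induction l with
  | nil =>
    intro p p' u hl hp' _ h
    have h1 := uniq h hl
    change T p ⊓ P (el φ u [] * r) ≤ ψ u
    rw [h1]
    exact inf_le_left.trans (T_le_of_mul_eq hp')
  | cons y l ih =>
    intro p p' u hl hp' hp h
    refine ⟨?_, ?_⟩
    · have h1 := uniq h hl
      rw [h1]
      exact inf_le_left.trans (T_le_of_mul_eq hp')
    · apply ih (p * gen y.1 * (φ y.2 : FE X)) (p' * gen y.1 * (ψ y.2 : FE X)) y.2
      · simp [hl]
      · rw [mul_assoc, (ψ y.2).idem]
      · rw [mul_assoc, (φ y.2).idem]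
      · rw [el_cons, el_cons] at h
        have h1 : p * ((φ u : FE X) * gen y.1 * el φ y.2 l * r) =
            p * gen y.1 * (φ y.2 : FE X) * (el φ y.2 l * r) := by
          rw [← mul_assoc, ← mul_assoc, ← mul_assoc, hp]
          rw [mul_assoc (p * gen y.1) (φ y.2 : FE X), ← mul_assoc (φ y.2 : FE X), head_mul_el,
            ← mul_assoc]
        have h2 : p' * ((ψ u : FE X) * gen y.1 * el ψ y.2 l * r) =
            p' * gen y.1 * (ψ y.2 : FE X) * (el ψ y.2 l * r) := by
          rw [← mul_assoc, ← mul_assoc, ← mul_assoc, hp']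
          rw [mul_assoc (p' * gen y.1) (ψ y.2 : FE X), ← mul_assoc (ψ y.2 : FE X), head_mul_el,
            ← mul_assoc]
        rw [← h1, ← h2, h]

/-- Left cancellation up to the projection of the left factor. -/
theorem cancel_left {p q p' q' : FE X} (h : p * q = p' * q') (hl : len p = len p') :
    (T p : FE X) * q = (T p' : FE X) * q' := by
  obtain ⟨u, l, rfl⟩ := exists_el q
  obtain ⟨u', l', rfl⟩ := exists_el q'
  have hw : l.map Prod.fst = l'.map Prod.fst := by
    have h1 := congrArg word h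
    rw [word_mul, word_mul, word_el, word_el] at h1
    exact (List.append_inj h1 hl).2
  obtain ⟨m, h1, h2⟩ := exists_joint l l' hw u u'
  rw [← h1, ← h2] at h ⊢
  set q : FE X := el Prod.fst (u, u') m with hq
  set q' : FE X := el Prod.snd (u, u') m with hq'
  have hq1 : (u : FE X) * q = q := head_mul_el Prod.fst (u, u') m
  have hq2 : (u' : FE X) * q' = q' := head_mul_el Prod.snd (u, u') m
  have hpp : len (p * (u : FE X)) = len (p' * (u' : FE X)) := by simp [hl]
  have hPQ : p * (u : FE X) * (q * 1) = p' * (u' : FE X) * (q' * 1) := by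
    rw [mul_one, mul_one, mul_assoc, mul_assoc, hq1, hq2, h]
  have hD1 : Dom Prod.fst Prod.snd 1 (p * (u : FE X)) (u, u') m :=
    dom_of_eq _ _ _ _ (p * (u : FE X)) (p' * (u' : FE X)) (u, u') hpp
      (by change p' * (u' : FE X) * (u' : FE X) = _; rw [mul_assoc, u'.idem])
      (by change p * (u : FE X) * (u : FE X) = _; rw [mul_assoc, u.idem]) hPQ
  have hD2 : Dom Prod.snd Prod.fst 1 (p' * (u' : FE X)) (u, u') m :=
    dom_of_eq _ _ _ _ (p' * (u' : FE X)) (p * (u : FE X)) (u, u') hpp.symm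
      (by change p * (u : FE X) * (u : FE X) = _; rw [mul_assoc, u.idem])
      (by change p' * (u' : FE X) * (u' : FE X) = _; rw [mul_assoc, u'.idem]) hPQ.symm
  have e1 := insert_meet Prod.fst Prod.snd 1 m (p * (u : FE X)) (u, u')
    (by change p * (u : FE X) * (u : FE X) = _; rw [mul_assoc, u.idem]) hD1
  have e2 := insert_meet Prod.snd Prod.fst 1 m (p' * (u' : FE X)) (u, u')
    (by change p' * (u' : FE X) * (u' : FE X) = _; rw [mul_assoc, u'.idem]) hD2
  have hcomm : (fun a : Proj (FE X) × Proj (FE X) => a.2 ⊓ a.1) = fun a => a.1 ⊓ a.2 := by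
    funext a
    exact inf_comm _ _
  rw [hcomm] at e2
  simp only [mul_one] at e1 e2
  set m' : FE X := el (fun a : Proj (FE X) × Proj (FE X) => a.1 ⊓ a.2) (u, u') m with hm'
  rw [← hq] at e1
  rw [← hq'] at e2
  have t1 : (T p : FE X) * q = (T (p * (u : FE X)) : FE X) * q := by
    rw [T_mul_coe, Proj.coe_inf, mul_assoc, hq1]
  have t2 : (T p' : FE X) * q' = (T (p' * (u' : FE X)) : FE X) * q' := by
    rw [T_mul_coe, Proj.coe_inf, mul_assoc, hq2]
  rw [t1, t2]
  -- both equal `e0 * m'`
  have hU := uniq (p := p * (u : FE X)) (q := q) (p' := p' * (u' : FE X)) (q' := q')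
    (by rw [mul_one, mul_one] at hPQ; exact hPQ) hpp
  have s1 : (T (p * (u : FE X)) : FE X) * q =
      ((T (p * (u : FE X)) ⊓ P q : Proj (FE X)) : FE X) * m' := by
    have h3 : P ((T (p * (u : FE X)) : FE X) * q) = T (p * (u : FE X)) ⊓ P q := P_coe_mul _ _
    have h4 := P_mul_self ((T (p * (u : FE X)) : FE X) * q)
    rw [h3] at h4
    rw [← h4, e1, ← mul_assoc]
    congr 1
    rw [Proj.coe_inf, mul_assoc, (P q).comm, ← mul_assoc, (T (p * (u : FE X))).idem]
  have s2 : (T (p' * (u' : FE X)) : FE X) * q' =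
      ((T (p' * (u' : FE X)) ⊓ P q' : Proj (FE X)) : FE X) * m' := by
    have h3 : P ((T (p' * (u' : FE X)) : FE X) * q') = T (p' * (u' : FE X)) ⊓ P q' :=
      P_coe_mul _ _
    have h4 := P_mul_self ((T (p' * (u' : FE X)) : FE X) * q')
    rw [h3] at h4
    rw [← h4, e2, ← mul_assoc]
    congr 1
    rw [Proj.coe_inf, mul_assoc, (P q').comm, ← mul_assoc, (T (p' * (u' : FE X))).idem]
  rw [s1, s2, hU]

@[simp] theorem rev_coe_P (a : FE X) : rev ((P a : Proj (FE X)) : FE X) = (T (rev a) : FE X) :=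
  rev_pl a

@[simp] theorem rev_coe_T (a : FE X) : rev ((T a : Proj (FE X)) : FE X) = (P (rev a) : FE X) :=
  rev_st a

/-- Right cancellation. -/
theorem cancel_right {p q p' q' : FE X} (h : p * q = p' * q') (hl : len q = len q') :
    p * (P q : FE X) = p' * (P q' : FE X) := by
  have h1 : rev q * rev p = rev q' * rev p' := by
    rw [← rev_mul, ← rev_mul, h]
  have h2 := congrArg rev (cancel_left h1 (by simpa using hl))
  simpa using h2

end Q36.EH.FE
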