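import Mathlib

/-!
# Ehresmann monoids, the free Ehresmann monoid, right acts and weak coherence

* `EhresmannMonoid S` : the variety given by the ten identities of the problem file.
* `FE X` : the free Ehresmann monoid on `X` (terms in `·`, `1`, `⁺`, `*` modulo the smallest
  congruence containing all instances of the identities), with its universal property `lift`.
* `RightAct`, `Subact`, `GenCon` (smallest congruence containing a set of pairs),
  `FinitelyPresented`, `Coherent`, `WeaklyRightCoherent`, `WeaklyLeftCoherent`.
-/

universe u v w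

namespace Q36.EH

/-- An Ehresmann monoid: a monoid with two unary operations `pl` (written `x⁺`) and
`st` (written `x*`) satisfying the ten identities of the problem. -/
class EhresmannMonoid (S : Type u) extends Monoid S where
  /-- the operation `x⁺` -/
  pl : S → S
  /-- the operation `x*` -/
  st : S → S
  /-- `x⁺ x = x` -/
  pl_mul_self : ∀ x : S, pl x * x = x
  /-- `x⁺ y⁺ = y⁺ x⁺` -/
  pl_comm : ∀ x y : S, pl x * pl y = pl y * pl x
  /-- `(x⁺ y)⁺ = x⁺ y⁺` -/
  pl_pl_mul : ∀ x y : S, pl (pl x * y) = pl x * pl y
  /-- `(x y)⁺ = (x y⁺)⁺` -/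
  pl_mul : ∀ x y : S, pl (x * y) = pl (x * pl y)
  /-- `x x* = x` -/
  mul_st_self : ∀ x : S, x * st x = x
  /-- `x* y* = y* x*` -/
  st_comm : ∀ x y : S, st x * st y = st y * st x
  /-- `(x y*)* = x* y*` -/
  st_mul_st : ∀ x y : S, st (x * st y) = st x * st y
  /-- `(x y)* = (x* y)*` -/
  st_mul : ∀ x y : S, st (x * y) = st (st x * y)
  /-- `(x⁺)* = x⁺` -/
  st_pl : ∀ x : S, st (pl x) = pl x
  /-- `(x*)⁺ = x*` -/
  pl_st : ∀ x : S, pl (st x) = st x

export EhresmannMonoid (pl st pl_mul_self pl_comm pl_pl_mul pl_mul mul_st_self st_comm st_mul_st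
  st_mul st_pl pl_st)

/-- Terms in the signature of Ehresmann monoids over the set of variables `X`. -/
inductive Term (X : Type u) : Type u
  | var : X → Term X
  | one : Term X
  | mul : Term X → Term X → Term X
  | pl : Term X → Term X
  | st : Term X → Term X

/-- The smallest congruence on the term algebra containing all instances of the monoid laws and
of the ten identities of Ehresmann monoids. -/
inductive TermEq {X : Type u} : Term X → Term X → Prop
  | refl (a : Term X) : TermEq a a
  | symm {a b : Term X} : TermEq a b → TermEq b a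
  | trans {a b c : Term X} : TermEq a b → TermEq b c → TermEq a c
  | mul_congr {a a' b b' : Term X} : TermEq a a' → TermEq b b' → TermEq (a.mul b) (a'.mul b')
  | pl_congr {a a' : Term X} : TermEq a a' → TermEq a.pl a'.pl
  | st_congr {a a' : Term X} : TermEq a a' → TermEq a.st a'.st
  | assoc (a b c : Term X) : TermEq ((a.mul b).mul c) (a.mul (b.mul c))
  | one_mul (a : Term X) : TermEq (Term.one.mul a) a
  | mul_one (a : Term X) : TermEq (a.mul Term.one) a
  | pl_mul_self (a : Term X) : TermEq (a.pl.mul a) a
  | pl_comm (a b : Term X) : TermEq (a.pl.mul b.pl) (b.pl.mul a.pl)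
  | pl_pl_mul (a b : Term X) : TermEq (a.pl.mul b).pl (a.pl.mul b.pl)
  | pl_mul (a b : Term X) : TermEq (a.mul b).pl (a.mul b.pl).pl
  | mul_st_self (a : Term X) : TermEq (a.mul a.st) a
  | st_comm (a b : Term X) : TermEq (a.st.mul b.st) (b.st.mul a.st)
  | st_mul_st (a b : Term X) : TermEq (a.mul b.st).st (a.st.mul b.st)
  | st_mul (a b : Term X) : TermEq (a.mul b).st (a.st.mul b).st
  | st_pl (a : Term X) : TermEq a.pl.st a.pl
  | pl_st (a : Term X) : TermEq a.st.pl a.st

/-- The congruence `TermEq` as a setoid. -/
instance termSetoid (X : Type u) : Setoid (Term X) where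
  r := TermEq
  iseqv := ⟨TermEq.refl, TermEq.symm, TermEq.trans⟩

/-- The free Ehresmann monoid on `X`. -/
def FE (X : Type u) : Type u := Quotient (termSetoid X)

namespace FE

variable {X : Type u}

/-- The class of a term. -/
def mk (t : Term X) : FE X := Quotient.mk (termSetoid X) t

/-- The generators of the free Ehresmann monoid. -/
def gen (x : X) : FE X := mk (Term.var x)

instance : EhresmannMonoid (FE X) where
  mul := Quotient.map₂ Term.mul (fun _ _ h _ _ h' => TermEq.mul_congr h h')
  one := mk Term.one
  mul_assoc := by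
    rintro ⟨a⟩ ⟨b⟩ ⟨c⟩
    exact Quotient.sound (TermEq.assoc a b c)
  one_mul := by
    rintro ⟨a⟩
    exact Quotient.sound (TermEq.one_mul a)
  mul_one := by
    rintro ⟨a⟩
    exact Quotient.sound (TermEq.mul_one a)
  pl := Quotient.map Term.pl (fun _ _ h => TermEq.pl_congr h)
  st := Quotient.map Term.st (fun _ _ h => TermEq.st_congr h)
  pl_mul_self := by
    rintro ⟨a⟩
    exact Quotient.sound (TermEq.pl_mul_self a)
  pl_comm := by
    rintro ⟨a⟩ ⟨b⟩
    exact Quotient.sound (TermEq.pl_comm a b)
  pl_pl_mul := by
    rintro ⟨a⟩ ⟨b⟩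
    exact Quotient.sound (TermEq.pl_pl_mul a b)
  pl_mul := by
    rintro ⟨a⟩ ⟨b⟩
    exact Quotient.sound (TermEq.pl_mul a b)
  mul_st_self := by
    rintro ⟨a⟩
    exact Quotient.sound (TermEq.mul_st_self a)
  st_comm := by
    rintro ⟨a⟩ ⟨b⟩
    exact Quotient.sound (TermEq.st_comm a b)
  st_mul_st := by
    rintro ⟨a⟩ ⟨b⟩
    exact Quotient.sound (TermEq.st_mul_st a b)
  st_mul := by
    rintro ⟨a⟩ ⟨b⟩
    exact Quotient.sound (TermEq.st_mul a b)
  st_pl := by
    rintro ⟨a⟩
    exact Quotient.sound (TermEq.st_pl a)
  pl_st := by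
    rintro ⟨a⟩
    exact Quotient.sound (TermEq.pl_st a)

/-- Evaluation of a term in an Ehresmann monoid. -/
def evalTerm {T : Type v} [EhresmannMonoid T] (g : X → T) : Term X → T
  | Term.var x => g x
  | Term.one => 1
  | Term.mul a b => evalTerm g a * evalTerm g b
  | Term.pl a => EhresmannMonoid.pl (evalTerm g a)
  | Term.st a => EhresmannMonoid.st (evalTerm g a)

theorem evalTerm_eq {T : Type v} [EhresmannMonoid T] (g : X → T) {a b : Term X}
    (h : TermEq a b) : evalTerm g a = evalTerm g b := by
  induction h with
  | refl a => rfl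
  | symm _ ih => exact ih.symm
  | trans _ _ ih ih' => exact ih.trans ih'
  | mul_congr _ _ ih ih' => simp only [evalTerm, ih, ih']
  | pl_congr _ ih => simp only [evalTerm, ih]
  | st_congr _ ih => simp only [evalTerm, ih]
  | assoc a b c => simp only [evalTerm, mul_assoc]
  | one_mul a => simp only [evalTerm, one_mul]
  | mul_one a => simp only [evalTerm, mul_one]
  | pl_mul_self a => exact EhresmannMonoid.pl_mul_self _
  | pl_comm a b => exact EhresmannMonoid.pl_comm _ _
  | pl_pl_mul a b => exact EhresmannMonoid.pl_pl_mul _ _
  | pl_mul a b => exact EhresmannMonoid.pl_mul _ _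
  | mul_st_self a => exact EhresmannMonoid.mul_st_self _
  | st_comm a b => exact EhresmannMonoid.st_comm _ _
  | st_mul_st a b => exact EhresmannMonoid.st_mul_st _ _
  | st_mul a b => exact EhresmannMonoid.st_mul _ _
  | st_pl a => exact EhresmannMonoid.st_pl _
  | pl_st a => exact EhresmannMonoid.pl_st _

/-- The universal property: the homomorphism of Ehresmann monoids `FE X → T` extending
`g : X → T`. -/
def lift {T : Type v} [EhresmannMonoid T] (g : X → T) : FE X → T :=
  Quotient.lift (evalTerm g) (fun _ _ h => evalTerm_eq g h)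

section lift
variable {T : Type v} [EhresmannMonoid T] (g : X → T)

@[simp] theorem lift_gen (x : X) : lift g (gen x) = g x := rfl
@[simp] theorem lift_one : lift g 1 = 1 := rfl
@[simp] theorem lift_mul (a b : FE X) : lift g (a * b) = lift g a * lift g b := by
  rcases a with ⟨a⟩; rcases b with ⟨b⟩; rfl
@[simp] theorem lift_pl (a : FE X) : lift g (pl a) = pl (lift g a) := by
  rcases a with ⟨a⟩; rfl
@[simp] theorem lift_st (a : FE X) : lift g (st a) = st (lift g a) := by
  rcases a with ⟨a⟩; rfl

end lift

/-- Induction on elements of the free Ehresmann monoid. -/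
theorem ind {P : FE X → Prop} (hvar : ∀ x, P (gen x)) (hone : P 1)
    (hmul : ∀ a b, P a → P b → P (a * b)) (hpl : ∀ a, P a → P (pl a))
    (hst : ∀ a, P a → P (st a)) (a : FE X) : P a := by
  rcases a with ⟨a⟩
  change P (mk a)
  induction a with
  | var x => exact hvar x
  | one => exact hone
  | mul a b iha ihb => exact hmul _ _ iha ihb
  | pl a ih => exact hpl _ ih
  | st a ih => exact hst _ ih

/-- Uniqueness in the universal property. -/
theorem lift_unique {T : Type v} [EhresmannMonoid T] (g : X → T) (f : FE X → T)
    (h0 : ∀ x, f (gen x) = g x) (h1 : f 1 = 1) (h2 : ∀ a b, f (a * b) = f a * f b)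
    (h3 : ∀ a, f (pl a) = pl (f a)) (h4 : ∀ a, f (st a) = st (f a)) (a : FE X) :
    f a = lift g a := by
  induction a using ind with
  | hvar x => rw [h0, lift_gen]
  | hone => rw [h1, lift_one]
  | hmul a b iha ihb => rw [h2, lift_mul, iha, ihb]
  | hpl a ih => rw [h3, lift_pl, ih]
  | hst a ih => rw [h4, lift_st, ih]

end FE

/-! ### Right acts -/

/-- A right act over the monoid `S`. -/
class RightAct (S : Type u) [Monoid S] (A : Type v) where
  /-- the action `a · s` -/
  act : A → S → A
  act_one : ∀ a : A, act a 1 = a
  act_mul : ∀ (a : A) (s t : S), act a (s * t) = act (act a s) t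

export RightAct (act act_one act_mul)

/-- A monoid is a right act over itself. -/
instance regularAct (S : Type u) [Monoid S] : RightAct S S where
  act a s := a * s
  act_one := mul_one
  act_mul a s t := (mul_assoc a s t).symm

/-- The free right act of rank `n`. -/
def FreeAct (S : Type u) (n : ℕ) : Type u := Fin n × S

instance freeAct (S : Type u) [Monoid S] (n : ℕ) : RightAct S (FreeAct S n) where
  act a s := (a.1, a.2 * s)
  act_one a := Prod.ext rfl (mul_one _)
  act_mul a s t := Prod.ext rfl (mul_assoc _ _ _).symm

/-- The smallest congruence of the right act `A` containing the set `R` of pairs. -/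
inductive GenCon (S : Type u) [Monoid S] {A : Type v} [RightAct S A] (R : Set (A × A)) :
    A → A → Prop
  | of {a b : A} : (a, b) ∈ R → GenCon S R a b
  | refl (a : A) : GenCon S R a a
  | symm {a b : A} : GenCon S R a b → GenCon S R b a
  | trans {a b c : A} : GenCon S R a b → GenCon S R b c → GenCon S R a c
  | act {a b : A} (s : S) : GenCon S R a b → GenCon S R (act a s) (act b s)

/-- The quotient of the right act `A` by the congruence generated by `R`. -/
def QuotAct (S : Type u) [Monoid S] {A : Type v} [RightAct S A] (R : Set (A × A)) : Type v :=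
  Quot (GenCon S R)

instance quotAct (S : Type u) [Monoid S] {A : Type v} [RightAct S A] (R : Set (A × A)) :
    RightAct S (QuotAct S R) where
  act q s := Quot.map (fun a => act a s) (fun _ _ h => GenCon.act s h) q
  act_one := by
    rintro ⟨a⟩
    exact congrArg (Quot.mk _) (act_one a)
  act_mul := by
    rintro ⟨a⟩ s t
    exact congrArg (Quot.mk _) (act_mul a s t)

/-- The right act `A` is finitely presented: it is isomorphic to the quotient of a free right
act of finite rank by a finitely generated congruence. -/
def FinitelyPresented (S : Type u) [Monoid S] (A : Type v) [RightAct S A] : Prop :=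
  ∃ (n : ℕ) (R : Set (FreeAct S n × FreeAct S n)), R.Finite ∧
    ∃ f : QuotAct S R → A, Function.Bijective f ∧ ∀ q (s : S), f (act q s) = act (f q) s

/-- A subact of a right act. -/
structure Subact (S : Type u) [Monoid S] (A : Type v) [RightAct S A] where
  /-- the underlying set -/
  carrier : Set A
  closed : ∀ a ∈ carrier, ∀ s : S, act a s ∈ carrier

instance subactAct (S : Type u) [Monoid S] {A : Type v} [RightAct S A] (B : Subact S A) :
    RightAct S B.carrier where
  act b s := ⟨act b.1 s, B.closed b.1 b.2 s⟩
  act_one b := Subtype.ext (act_one b.1)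
  act_mul b s t := Subtype.ext (act_mul b.1 s t)

/-- The subact `B` is finitely generated. -/
def Subact.FG {S : Type u} [Monoid S] {A : Type v} [RightAct S A] (B : Subact S A) : Prop :=
  ∃ F : Set A, F.Finite ∧ B.carrier = {b | ∃ a ∈ F, ∃ s : S, b = act a s}

/-- The right act `A` is coherent: every finitely generated subact is finitely presented. -/
def Coherent (S : Type u) [Monoid S] (A : Type v) [RightAct S A] : Prop :=
  ∀ B : Subact S A, B.FG → FinitelyPresented S B.carrier

/-- `S` is weakly right coherent: the right act `S` over itself is coherent. -/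
def WeaklyRightCoherent (S : Type u) [Monoid S] : Prop := Coherent S S

/-- `S` is weakly left coherent: the opposite monoid is weakly right coherent. -/
def WeaklyLeftCoherent (S : Type u) [Monoid S] : Prop := WeaklyRightCoherent Sᵐᵒᵖ

end Q36.EH
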