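import Pool.Agent.Q36.EH.Trunc

/-!
# Weak coherence of the free Ehresmann monoid
-/

universe u v w

namespace Q36.EH

/-- For each `a` there is `z` with `a z = a` and `a u = a v → z u = z v`. -/
def Alpha (S : Type u) [Monoid S] : Prop :=
  ∀ a : S, ∃ z : S, a * z = a ∧ ∀ u v : S, a * u = a * v → z * u = z * v

/-- The solutions of `a u = b v` are generated by finitely many. -/
def Beta (S : Type u) [Monoid S] : Prop :=
  ∀ a b : S, ∃ F : Set (S × S), F.Finite ∧ (∀ y ∈ F, a * y.1 = b * y.2) ∧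
    ∀ u v : S, a * u = b * v → ∃ y ∈ F, ∃ t : S, a * u = a * (y.1 * t) ∧ b * v = b * (y.2 * t)

theorem Alpha.transport {S : Type u} {T : Type v} [Monoid S] [Monoid T] (e : S ≃* T)
    (h : Alpha S) : Alpha T := by
  intro a
  obtain ⟨z, h1, h2⟩ := h (e.symm a)
  refine ⟨e z, ?_, ?_⟩
  · apply e.symm.injective
    simpa using h1
  · intro u v huv
    apply e.symm.injective
    have := h2 (e.symm u) (e.symm v) (by rw [← map_mul, ← map_mul, huv])
    simpa using this

theorem Beta.transport {S : Type u} {T : Type v} [Monoid S] [Monoid T] (e : S ≃* T)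
    (h : Beta S) : Beta T := by
  intro a b
  obtain ⟨F, h0, h1, h2⟩ := h (e.symm a) (e.symm b)
  refine ⟨(fun y : S × S => (e y.1, e y.2)) '' F, h0.image _, ?_, ?_⟩
  · rintro _ ⟨y, hy, rfl⟩
    apply e.symm.injective
    simpa using h1 y hy
  · intro u v huv
    obtain ⟨y, hy, t, h3, h4⟩ := h2 (e.symm u) (e.symm v) (by rw [← map_mul, ← map_mul, huv])
    refine ⟨_, ⟨y, hy, rfl⟩, e t, ?_, ?_⟩
    · apply e.symm.injective
      simpa using h3
    · apply e.symm.injective
      simpa using h4

section Assembly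
variable {S : Type u} [mS : Monoid S]

theorem GenCon.sound {A : Type v} [RightAct S A] {B : Type w} [RightAct S B] {R : Set (A × A)}
    (f : A → B) (hf : ∀ (a : A) (s : S), f (RightAct.act a s) = RightAct.act (f a) s)
    (hR : ∀ p ∈ R, f p.1 = f p.2) {a b : A} (h : GenCon S R a b) : f a = f b := by
  induction h with
  | of h => exact hR _ h
  | refl a => rfl
  | symm _ ih => exact ih.symm
  | trans _ _ ih ih' => exact ih.trans ih'
  | act s _ ih => rw [hf, hf, ih]

theorem coherent_of_alpha_beta (hA : Alpha S) (hB : Beta S) : WeaklyRightCoherent S := by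
  classical
  intro B hBfg
  obtain ⟨F, hF, hFB⟩ := hBfg
  obtain ⟨n, a, ha⟩ : ∃ (n : ℕ) (a : Fin n → S), Set.range a = F := by
    obtain ⟨n, a, ha⟩ := hF.fin_embedding
    exact ⟨n, a, ha⟩
  have hmem : ∀ (i : Fin n) (s : S), a i * s ∈ B.carrier := by
    intro i s
    rw [hFB]
    exact ⟨a i, ha ▸ Set.mem_range_self i, s, rfl⟩
  choose z hz1 hz2 using hA
  choose G hG1 hG2 hG3 using hB
  let R : Set (FreeAct S n × FreeAct S n) :=
    (Set.range fun i : Fin n => ((i, (1 : S)), (i, z (a i)))) ∪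
    ⋃ ij : Fin n × Fin n, (fun y : S × S => ((ij.1, y.1), (ij.2, y.2))) '' G (a ij.1) (a ij.2)
  have hR : R.Finite := by
    apply Set.Finite.union (Set.finite_range _)
    exact Set.finite_iUnion (fun ij => (hG1 _ _).image _)
  let f : FreeAct S n → B.carrier := fun y => ⟨a y.1 * y.2, hmem y.1 y.2⟩
  have hf : ∀ (y : FreeAct S n) (s : S), f (@act S mS (FreeAct S n) (freeAct S n) y s) =
      @act S mS B.carrier (subactAct S B) (f y) s := by
    intro y s
    apply Subtype.ext
    change a y.1 * (y.2 * s) = a y.1 * y.2 * s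
    rw [mul_assoc]
  have hfR : ∀ p ∈ R, f p.1 = f p.2 := by
    rintro p (⟨i, rfl⟩ | hp)
    · apply Subtype.ext
      change a i * 1 = a i * z (a i)
      rw [mul_one, hz1]
    · rw [Set.mem_iUnion] at hp
      obtain ⟨ij, y, hy, rfl⟩ := hp
      apply Subtype.ext
      exact hG2 _ _ y hy
  refine ⟨n, R, hR, Quot.lift f (fun _ _ h => GenCon.sound f hf hfR h), ⟨?_, ?_⟩, ?_⟩
  · -- injectivity
    have key : ∀ (i : Fin n) (s : S), GenCon S R (i, s) (i, z (a i) * s) := by
      intro i s
      have h1 : GenCon S R ((i, (1 : S)) : FreeAct S n) (i, z (a i)) :=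
        GenCon.of (Or.inl ⟨i, rfl⟩)
      have h2 := GenCon.act s h1
      have h3 : (act ((i, (1 : S)) : FreeAct S n) s : FreeAct S n) = (i, s) :=
        Prod.ext rfl (one_mul s)
      rw [h3] at h2
      exact h2
    rintro ⟨i, s⟩ ⟨j, t⟩ h
    apply Quot.sound
    have h1 : a i * s = a j * t := congrArg Subtype.val h
    obtain ⟨y, hy, r, h2, h3⟩ := hG3 _ _ _ _ h1
    have h4 : z (a i) * s = z (a i) * (y.1 * r) := hz2 _ _ _ h2
    have h5 : z (a j) * t = z (a j) * (y.2 * r) := hz2 _ _ _ h3
    have h6 : GenCon S R ((i, y.1) : FreeAct S n) (j, y.2) :=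
      GenCon.of (Or.inr (Set.mem_iUnion.2 ⟨(i, j), y, hy, rfl⟩))
    have h7 : GenCon S R ((i, y.1 * r) : FreeAct S n) (j, y.2 * r) := GenCon.act r h6
    have c1 : GenCon S R (i, s) (i, y.1 * r) := by
      have := key i s
      rw [h4] at this
      exact this.trans (key i (y.1 * r)).symm
    have c2 : GenCon S R (j, t) (j, y.2 * r) := by
      have := key j t
      rw [h5] at this
      exact this.trans (key j (y.2 * r)).symm
    exact c1.trans (h7.trans c2.symm)
  · -- surjectivity
    rintro ⟨b, hb⟩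
    have hb' := hb
    rw [hFB] at hb'
    obtain ⟨c, hc, s, rfl⟩ := hb'
    rw [← ha] at hc
    obtain ⟨i, rfl⟩ := hc
    exact ⟨Quot.mk _ (i, s), rfl⟩
  · rintro ⟨y⟩ s
    exact hf y s

end Assembly

namespace FE
variable {X : Type u}

theorem alpha : Alpha (FE X) := by
  intro a
  exact ⟨(T a : FE X), mul_T_self a, fun u v h => cancel_left h rfl⟩

theorem exists_factor (b : FE X) : ∀ n, n ≤ len b → ∃ b1 b2 : FE X, b = b1 * b2 ∧ len b1 = n := by
  obtain ⟨u, l, rfl⟩ := exists_el b
  induction l generalizing u with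
  | nil =>
    intro n hn
    have : len (el id u ([] : List (X × Proj (FE X)))) = 0 := by
      rw [el_nil]
      simp
    exact ⟨1, _, (one_mul _).symm, by rw [len_one]; omega⟩
  | cons y l ih =>
    intro n hn
    cases n with
    | zero => exact ⟨1, _, (one_mul _).symm, rfl⟩
    | succ n =>
      have h1 : len (el id u (y :: l)) = len (el id y.2 l) + 1 := by
        rw [el_cons, len_mul, len_mul, len_gen, len_proj]
        omega
      obtain ⟨b1, b2, h2, h3⟩ := ih y.2 n (by omega)
      refine ⟨(u : FE X) * gen y.1 * b1, b2, ?_, ?_⟩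
      · rw [el_cons, h2, mul_assoc, mul_assoc, mul_assoc]
        rfl
      · rw [len_mul, len_mul, len_gen, len_proj, h3]
        omega

theorem beta_le {a b : FE X} (hab : len a ≤ len b) : ∃ F : Set (FE X × FE X), F.Finite ∧
    (∀ y ∈ F, a * y.1 = b * y.2) ∧
    ∀ u v : FE X, a * u = b * v → ∃ y ∈ F, ∃ t : FE X,
      a * u = a * (y.1 * t) ∧ b * v = b * (y.2 * t) := by
  obtain ⟨b1, b2, hb, hl⟩ := exists_factor b (len a) hab
  set c : FE X := (T b1 : FE X) * b2 with hc
  have hb1 : b1 * c = b := by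
    rw [hc, ← mul_assoc, mul_T_self, hb]
  obtain ⟨F, h1, h2⟩ := equalizer (a * c) b
  refine ⟨(fun t : Proj (FE X) => (c * (t : FE X), (t : FE X))) '' (F : Set (Proj (FE X))),
    F.finite_toSet.image _, ?_, ?_⟩
  · rintro _ ⟨t, ht, rfl⟩
    have := h1 t ht
    rw [← this, mul_assoc]
  · intro u v huv
    have h3 : (T a : FE X) * u = c * v := by
      have h4 : a * u = b1 * (b2 * v) := by
        rw [huv, hb, mul_assoc]
      rw [cancel_left h4 hl.symm, hc, mul_assoc]
    have h5 : a * c * v = b * v := by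
      rw [mul_assoc, ← h3, ← mul_assoc, mul_T_self, huv]
    have h6 := cancel_right h5 rfl
    obtain ⟨t, ht, hle⟩ := h2 (P v) h6
    have h7 : (t : FE X) * v = v := mul_eq_of_P_le hle
    refine ⟨_, ⟨t, ht, rfl⟩, v, ?_, ?_⟩
    · change a * u = a * (c * (t : FE X) * v)
      rw [mul_assoc c, h7, ← h3, ← mul_assoc, mul_T_self]
    · change b * v = b * ((t : FE X) * v)
      rw [h7]

theorem beta : Beta (FE X) := by
  intro a b
  rcases le_total (len a) (len b) with h | h
  · exact beta_le h
  · obtain ⟨F, h0, h1, h2⟩ := beta_le h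
    refine ⟨Prod.swap '' F, h0.image _, ?_, ?_⟩
    · rintro _ ⟨y, hy, rfl⟩
      exact (h1 y hy).symm
    · intro u v huv
      obtain ⟨y, hy, t, h3, h4⟩ := h2 v u huv.symm
      exact ⟨_, ⟨y, hy, rfl⟩, t, h4, h3⟩

open MulOpposite in
/-- Reversal as an isomorphism onto the opposite monoid. -/
def revEquiv : FE X ≃* (FE X)ᵐᵒᵖ where
  toFun a := op (rev a)
  invFun a := rev a.unop
  left_inv a := by simp
  right_inv a := by simp
  map_mul' a b := by simp

theorem weaklyRightCoherent : WeaklyRightCoherent (FE X) :=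
  coherent_of_alpha_beta alpha beta

theorem weaklyLeftCoherent : WeaklyLeftCoherent (FE X) :=
  coherent_of_alpha_beta (alpha.transport revEquiv) (beta.transport revEquiv)

end FE

end Q36.EH
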