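import Pool.Agent.Q36.EH.Canon

/-!
# Truncation: finitely many projections of bounded depth decide right multiplications
-/

universe u v w

namespace Q36.EH.FE

variable {X : Type u}

/-! ### Every projection is generated by the operations `e ↦ (x e)⁺`, `e ↦ (e x)*`, meets -/

/-- Generated projections. -/
inductive Gen : Proj (FE X) → Prop
  | top : Gen ⊤
  | inf {e f : Proj (FE X)} : Gen e → Gen f → Gen (e ⊓ f)
  | plx (x : X) {e : Proj (FE X)} : Gen e → Gen (P (gen x * (e : FE X)))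
  | stx (x : X) {e : Proj (FE X)} : Gen e → Gen (T ((e : FE X) * gen x))

theorem gen_aux (a : FE X) : ∀ e : Proj (FE X), Gen e →
    Gen (P (a * (e : FE X))) ∧ Gen (T ((e : FE X) * a)) := by
  induction a using ind with
  | hvar x => exact fun e he => ⟨Gen.plx x he, Gen.stx x he⟩
  | hone =>
    intro e he
    rw [one_mul, mul_one, P_coe, T_coe]
    exact ⟨he, he⟩
  | hmul a b iha ihb =>
    intro e he
    constructor
    · rw [mul_assoc, P_mul]
      exact (iha _ (ihb _ he).1).1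
    · rw [← mul_assoc, T_mul]
      exact (ihb _ (iha _ he).2).2
  | hpl a ih =>
    intro e he
    have h1 : Gen (P a) := by
      have := (ih ⊤ Gen.top).1
      rwa [Proj.coe_top, mul_one] at this
    rw [← coe_P, ← Proj.coe_inf, ← Proj.coe_inf, P_coe, T_coe]
    exact ⟨Gen.inf h1 he, Gen.inf he h1⟩
  | hst a ih =>
    intro e he
    have h1 : Gen (T a) := by
      have := (ih ⊤ Gen.top).2
      rwa [Proj.coe_top, one_mul] at this
    rw [← coe_T, ← Proj.coe_inf, ← Proj.coe_inf, P_coe, T_coe]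
    exact ⟨Gen.inf h1 he, Gen.inf he h1⟩

theorem gen_all (e : Proj (FE X)) : Gen e := by
  have := (gen_aux (e : FE X) ⊤ Gen.top).1
  rwa [Proj.coe_top, mul_one, P_coe] at this

/-! ### The finite sets of projections of bounded depth -/

open Classical in
/-- Projections of depth at most `N` over the finite set `L` of letters. -/
noncomputable def EN (L : Finset X) : ℕ → Finset (Proj (FE X))
  | 0 => {⊤}
  | N + 1 => ((L ×ˢ EN L N).image (fun y => P (gen y.1 * (y.2 : FE X))) ∪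
      (L ×ˢ EN L N).image (fun y => T ((y.2 : FE X) * gen y.1))).powerset.image
        (fun s => s.inf id)

theorem mem_EN_succ {L : Finset X} {N : ℕ} {q : Proj (FE X)} :
    q ∈ EN L (N + 1) ↔ ∃ s : Finset (Proj (FE X)),
      (∀ r ∈ s, ∃ x ∈ L, ∃ t ∈ EN L N, r = P (gen x * (t : FE X)) ∨
        r = T ((t : FE X) * gen x)) ∧ s.inf id = q := by
  classical
  rw [EN, Finset.mem_image]
  constructor
  · rintro ⟨s, hs, h⟩
    refine ⟨s, ?_, h⟩
    intro r hr
    have h1 := Finset.mem_powerset.1 hs hr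
    rw [Finset.mem_union, Finset.mem_image, Finset.mem_image] at h1
    rcases h1 with ⟨y, hy, rfl⟩ | ⟨y, hy, rfl⟩
    · rw [Finset.mem_product] at hy
      exact ⟨y.1, hy.1, y.2, hy.2, Or.inl rfl⟩
    · rw [Finset.mem_product] at hy
      exact ⟨y.1, hy.1, y.2, hy.2, Or.inr rfl⟩
  · rintro ⟨s, hs, h⟩
    refine ⟨s, ?_, h⟩
    rw [Finset.mem_powerset]
    intro r hr
    obtain ⟨x, hx, t, ht, h1 | h1⟩ := hs r hr
    · rw [Finset.mem_union, Finset.mem_image]
      exact Or.inl ⟨(x, t), Finset.mem_product.2 ⟨hx, ht⟩, h1.symm⟩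
    · rw [Finset.mem_union, Finset.mem_image, Finset.mem_image]
      exact Or.inr ⟨(x, t), Finset.mem_product.2 ⟨hx, ht⟩, h1.symm⟩

theorem top_mem_EN (L : Finset X) (N : ℕ) : ⊤ ∈ EN L N := by
  cases N with
  | zero => simp [EN]
  | succ N => exact mem_EN_succ.2 ⟨∅, by simp, by simp⟩

theorem inf_mem_EN {L : Finset X} {N : ℕ} {q r : Proj (FE X)} (hq : q ∈ EN L N)
    (hr : r ∈ EN L N) : q ⊓ r ∈ EN L N := by
  classical
  cases N with
  | zero =>
    simp only [EN, Finset.mem_singleton] at hq hr ⊢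
    rw [hq, hr, inf_idem]
  | succ N =>
    obtain ⟨s, hs, rfl⟩ := mem_EN_succ.1 hq
    obtain ⟨s', hs', rfl⟩ := mem_EN_succ.1 hr
    refine mem_EN_succ.2 ⟨s ∪ s', ?_, Finset.inf_union⟩
    intro r hr
    rcases Finset.mem_union.1 hr with h | h
    · exact hs r h
    · exact hs' r h

theorem EN_mono_L {L L' : Finset X} (h : L ⊆ L') : ∀ N, EN L N ⊆ EN L' N := by
  intro N
  induction N with
  | zero => intro q hq; exact hq
  | succ N ih =>
    intro q hq
    obtain ⟨s, hs, h1⟩ := mem_EN_succ.1 hq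
    refine mem_EN_succ.2 ⟨s, ?_, h1⟩
    intro r hr
    obtain ⟨x, hx, t, ht, h2⟩ := hs r hr
    exact ⟨x, h hx, t, ih ht, h2⟩

theorem EN_mono_succ (L : Finset X) : ∀ N, EN L N ⊆ EN L (N + 1) := by
  intro N
  induction N with
  | zero =>
    intro q hq
    simp only [EN, Finset.mem_singleton] at hq
    rw [hq]
    exact top_mem_EN L 1
  | succ N ih =>
    intro q hq
    obtain ⟨s, hs, h1⟩ := mem_EN_succ.1 hq
    refine mem_EN_succ.2 ⟨s, ?_, h1⟩
    intro r hr
    obtain ⟨x, hx, t, ht, h2⟩ := hs r hr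
    exact ⟨x, hx, t, ih ht, h2⟩

theorem EN_mono_N (L : Finset X) {N M : ℕ} (h : N ≤ M) : EN L N ⊆ EN L M := by
  induction h with
  | refl => exact fun q hq => hq
  | step _ ih => exact ih.trans (EN_mono_succ L _)

theorem EN_mono {L L' : Finset X} {N M : ℕ} (h : L ⊆ L') (h' : N ≤ M) : EN L N ⊆ EN L' M :=
  (EN_mono_L h N).trans (EN_mono_N L' h')

theorem plx_mem {L : Finset X} {N : ℕ} {x : X} (hx : x ∈ L) {t : Proj (FE X)}
    (ht : t ∈ EN L N) : P (gen x * (t : FE X)) ∈ EN L (N + 1) :=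
  mem_EN_succ.2 ⟨{P (gen x * (t : FE X))}, by
    intro r hr
    rw [Finset.mem_singleton] at hr
    exact ⟨x, hx, t, ht, Or.inl hr⟩, by simp⟩

theorem stx_mem {L : Finset X} {N : ℕ} {x : X} (hx : x ∈ L) {t : Proj (FE X)}
    (ht : t ∈ EN L N) : T ((t : FE X) * gen x) ∈ EN L (N + 1) :=
  mem_EN_succ.2 ⟨{T ((t : FE X) * gen x)}, by
    intro r hr
    rw [Finset.mem_singleton] at hr
    exact ⟨x, hx, t, ht, Or.inr hr⟩, by simp⟩

theorem exists_EN (q : Proj (FE X)) : ∃ (L : Finset X) (N : ℕ), q ∈ EN L N := by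
  classical
  induction gen_all q with
  | top => exact ⟨∅, 0, top_mem_EN _ _⟩
  | inf _ _ ih ih' =>
    obtain ⟨L, N, h⟩ := ih
    obtain ⟨L', N', h'⟩ := ih'
    exact ⟨L ∪ L', max N N', inf_mem_EN (EN_mono Finset.subset_union_left (le_max_left _ _) h)
      (EN_mono Finset.subset_union_right (le_max_right _ _) h')⟩
  | plx x _ ih =>
    obtain ⟨L, N, h⟩ := ih
    exact ⟨insert x L, N + 1, plx_mem (Finset.mem_insert_self _ _)
      (EN_mono_L (Finset.subset_insert _ _) _ h)⟩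
  | stx x _ ih =>
    obtain ⟨L, N, h⟩ := ih
    exact ⟨insert x L, N + 1, stx_mem (Finset.mem_insert_self _ _)
      (EN_mono_L (Finset.subset_insert _ _) _ h)⟩

open Classical in
/-- The least projection of depth `N` above `g`. -/
noncomputable def tau (L : Finset X) (N : ℕ) (g : Proj (FE X)) : Proj (FE X) :=
  ((EN L N).filter (fun q => g ≤ q)).inf id

theorem le_tau (L : Finset X) (N : ℕ) (g : Proj (FE X)) : g ≤ tau L N g := by
  classical
  apply Finset.le_inf
  intro q hq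
  exact (Finset.mem_filter.1 hq).2

theorem tau_le {L : Finset X} {N : ℕ} {g q : Proj (FE X)} (hq : q ∈ EN L N) (h : g ≤ q) :
    tau L N g ≤ q := by
  classical
  exact Finset.inf_le (f := id) (Finset.mem_filter.2 ⟨hq, h⟩)

theorem tau_mem (L : Finset X) (N : ℕ) (g : Proj (FE X)) : tau L N g ∈ EN L N := by
  classical
  refine Finset.inf_mem (s := (↑(EN L N) : Set (Proj (FE X)))) (top_mem_EN L N)
    (fun x hx y hy => inf_mem_EN hx hy) _ _ ?_
  intro q hq
  exact (Finset.mem_filter.1 hq).1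

theorem tau_mono (L : Finset X) (N : ℕ) {g g' : Proj (FE X)} (h : g ≤ g') :
    tau L N g ≤ tau L N g' :=
  tau_le (tau_mem L N g') (h.trans (le_tau L N g'))

theorem tau_anti (L : Finset X) {N M : ℕ} (h : N ≤ M) (g : Proj (FE X)) :
    tau L M g ≤ tau L N g :=
  tau_le (EN_mono_N L h (tau_mem L N g)) (le_tau L N g)

/-! ### The truncated graph -/

/-- The truncated graph: pairs `(v, k)` with remaining depth `k`, and the point `none`. -/
def G (L : Finset X) (x : X) : Option (Proj (FE X) × ℕ) → Option (Proj (FE X) × ℕ) → Prop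
  | none, none => True
  | none, some z => x ∉ L ∨ z.2 = 0
  | some z, none => x ∉ L ∨ z.2 = 0
  | some z, some z' => x ∈ L ∧ (z'.2 = z.2 + 1 ∨ z.2 = z'.2 + 1) ∧ C x z.1 z'.1

theorem G_none (L : Finset X) (a : FE X) : rel (G L) a none none := by
  induction a using ind with
  | hvar x => exact trivial
  | hone => rfl
  | hmul a b iha ihb => exact (rel_mul _ _ _ _ _).2 ⟨none, iha, ihb⟩
  | hpl a ih => exact (rel_pl _ _ _ _).2 ⟨rfl, none, ih⟩
  | hst a ih => exact (rel_st _ _ _ _).2 ⟨rfl, none, ih⟩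

theorem rel_proj_eq {V : Type v} {g : X → V → V → Prop} {e : Proj (FE X)} {z z' : V}
    (h : rel g (e : FE X) z z') : z = z' := by
  rw [← e.pl_eq] at h
  exact ((rel_pl g _ _ _).1 h).1

theorem rel_mono_proj {V : Type v} {g : X → V → V → Prop} {e f : Proj (FE X)} (h : e ≤ f)
    {z : V} (hz : rel g (e : FE X) z z) : rel g (f : FE X) z z := by
  have h1 : (e : FE X) * f = e := h
  rw [← h1] at hz
  obtain ⟨w, h2, h3⟩ := (rel_mul _ _ _ _ _).1 hz
  have h4 := rel_proj_eq h2
  cases h4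
  exact h3

/-- (i) satisfaction of a projection of small depth in the truncated graph is true. -/
theorem G_sound (L : Finset X) : ∀ (j : ℕ) (q : Proj (FE X)), q ∈ EN L j →
    ∀ (v : Proj (FE X)) (k : ℕ), j ≤ k →
      rel (G L) (q : FE X) (some (v, k)) (some (v, k)) → v ≤ q := by
  intro j
  induction j with
  | zero =>
    intro q hq v k _ _
    simp only [EN, Finset.mem_singleton] at hq
    rw [hq]
    exact le_top
  | succ j ih =>
    intro q hq v k hk h
    obtain ⟨s, hs, rfl⟩ := mem_EN_succ.1 hq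
    apply Finset.le_inf
    intro r hr
    have h1 : rel (G L) (r : FE X) (some (v, k)) (some (v, k)) :=
      rel_mono_proj (Finset.inf_le (f := id) hr) h
    obtain ⟨x, hx, t, ht, h2 | h2⟩ := hs r hr
    · change v ≤ r
      rw [h2] at h1 ⊢
      rw [coe_P] at h1
      obtain ⟨_, z, h3⟩ := (rel_pl _ _ _ _).1 h1
      obtain ⟨z', h4, h5⟩ := (rel_mul _ _ _ _ _).1 h3
      have h6 := rel_proj_eq h5
      cases h6
      rw [rel_gen] at h4
      cases z with
      | none =>
        rcases h4 with h4 | h4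
        · exact absurd hx h4
        · simp only at h4
          omega
      | some z =>
        obtain ⟨w, m⟩ := z
        obtain ⟨_, h7, h8⟩ := h4
        simp only at h7 h8
        have h9 := ih t ht w m (by omega) h5
        exact h8.1.trans (P_mono _ h9)
    · change v ≤ r
      rw [h2] at h1 ⊢
      rw [coe_T] at h1
      obtain ⟨_, z, h3⟩ := (rel_st _ _ _ _).1 h1
      obtain ⟨z', h4, h5⟩ := (rel_mul _ _ _ _ _).1 h3
      have h6 := rel_proj_eq h4
      cases h6
      rw [rel_gen] at h5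
      cases z with
      | none =>
        rcases h5 with h5 | h5
        · exact absurd hx h5
        · simp only at h5
          omega
      | some z =>
        obtain ⟨w, m⟩ := z
        obtain ⟨_, h7, h8⟩ := h5
        simp only at h7 h8
        have h9 := ih t ht w m (by omega) h4
        exact h8.2.trans (T_mono _ h9)

/-- (ii) if `v` is below the truncation of `g` then `(v, k)` satisfies `g`. -/
theorem G_complete (L : Finset X) (g : Proj (FE X)) : ∀ (v : Proj (FE X)) (k : ℕ),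
    v ≤ tau L k g → rel (G L) (g : FE X) (some (v, k)) (some (v, k)) := by
  induction gen_all g with
  | top =>
    intro v k _
    exact rfl
  | @inf e f _ _ ih ih' =>
    intro v k h
    rw [Proj.coe_inf]
    exact (rel_mul _ _ _ _ _).2 ⟨_, ih v k (h.trans (tau_mono L k inf_le_left)),
      ih' v k (h.trans (tau_mono L k inf_le_right))⟩
  | @plx x e _ ih =>
    intro v k h
    rw [coe_P]
    refine (rel_pl _ _ _ _).2 ⟨rfl, ?_⟩
    by_cases hx : x ∈ L
    · cases k with
      | zero =>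
        exact ⟨none, (rel_mul _ _ _ _ _).2 ⟨none, Or.inr rfl, G_none L _⟩⟩
      | succ k =>
        have h1 : v ≤ P (gen x * (tau L k e : FE X)) :=
          h.trans (tau_le (plx_mem hx (tau_mem L k e)) (P_mono _ (le_tau L k e)))
        exact ⟨some (T ((v : FE X) * gen x) ⊓ tau L k e, k), (rel_mul _ _ _ _ _).2
          ⟨some (T ((v : FE X) * gen x) ⊓ tau L k e, k),
            ⟨hx, Or.inr rfl, edge_of_le h1⟩, ih _ _ inf_le_right⟩⟩
    · exact ⟨none, (rel_mul _ _ _ _ _).2 ⟨none, Or.inl hx, G_none L _⟩⟩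
  | @stx x e _ ih =>
    intro v k h
    rw [coe_T]
    refine (rel_st _ _ _ _).2 ⟨rfl, ?_⟩
    by_cases hx : x ∈ L
    · cases k with
      | zero =>
        exact ⟨none, (rel_mul _ _ _ _ _).2 ⟨none, G_none L _, Or.inr rfl⟩⟩
      | succ k =>
        have h1 : v ≤ T ((tau L k e : FE X) * gen x) :=
          h.trans (tau_le (stx_mem hx (tau_mem L k e)) (T_mono _ (le_tau L k e)))
        exact ⟨some (tau L k e ⊓ P (gen x * (v : FE X)), k), (rel_mul _ _ _ _ _).2
          ⟨some (tau L k e ⊓ P (gen x * (v : FE X)), k),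
            ih _ _ inf_le_left, ⟨hx, Or.inl rfl, edge_of_le' h1⟩⟩⟩
    · exact ⟨none, (rel_mul _ _ _ _ _).2 ⟨none, G_none L _, Or.inl hx⟩⟩

/-- (iii) paths of the canonical graph run downward in the truncated graph. -/
theorem G_path (L : Finset X) (a : FE X) : ∀ (v w : Proj (FE X)) (k : ℕ), rel C a v w →
    (∃ z, rel (G L) a (some (v, k)) z ∧ (z = none ∨ ∃ k', k' ≤ k ∧ z = some (w, k'))) ∧
    (∃ z, rel (G L) a z (some (w, k)) ∧ (z = none ∨ ∃ k', k' ≤ k ∧ z = some (v, k'))) := by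
  induction a using ind with
  | hvar x =>
    intro v w k h
    by_cases hx : x ∈ L
    · cases k with
      | zero =>
        exact ⟨⟨none, Or.inr rfl, Or.inl rfl⟩, ⟨none, Or.inr rfl, Or.inl rfl⟩⟩
      | succ k =>
        exact ⟨⟨some (w, k), ⟨hx, Or.inr rfl, h⟩, Or.inr ⟨k, Nat.le_succ k, rfl⟩⟩,
          ⟨some (v, k), ⟨hx, Or.inl rfl, h⟩, Or.inr ⟨k, Nat.le_succ k, rfl⟩⟩⟩
    · exact ⟨⟨none, Or.inl hx, Or.inl rfl⟩, ⟨none, Or.inl hx, Or.inl rfl⟩⟩
  | hone =>
    intro v w k h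
    cases h
    exact ⟨⟨_, rfl, Or.inr ⟨k, le_rfl, rfl⟩⟩, ⟨_, rfl, Or.inr ⟨k, le_rfl, rfl⟩⟩⟩
  | hmul a b iha ihb =>
    intro v w k h
    obtain ⟨y, h1, h2⟩ := (rel_mul _ _ _ _ _).1 h
    constructor
    · obtain ⟨z, h3, rfl | ⟨k', hk', rfl⟩⟩ := (iha v y k h1).1
      · exact ⟨none, (rel_mul _ _ _ _ _).2 ⟨none, h3, G_none L b⟩, Or.inl rfl⟩
      · obtain ⟨z, h4, h5⟩ := (ihb y w k' h2).1
        refine ⟨z, (rel_mul _ _ _ _ _).2 ⟨_, h3, h4⟩, ?_⟩
        rcases h5 with rfl | ⟨k'', hk'', rfl⟩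
        · exact Or.inl rfl
        · exact Or.inr ⟨k'', hk''.trans hk', rfl⟩
    · obtain ⟨z, h3, rfl | ⟨k', hk', rfl⟩⟩ := (ihb y w k h2).2
      · exact ⟨none, (rel_mul _ _ _ _ _).2 ⟨none, G_none L a, h3⟩, Or.inl rfl⟩
      · obtain ⟨z, h4, h5⟩ := (iha v y k' h1).2
        refine ⟨z, (rel_mul _ _ _ _ _).2 ⟨_, h4, h3⟩, ?_⟩
        rcases h5 with rfl | ⟨k'', hk'', rfl⟩
        · exact Or.inl rfl
        · exact Or.inr ⟨k'', hk''.trans hk', rfl⟩
  | hpl a ih =>
    intro v w k h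
    obtain ⟨h1, y, h2⟩ := (rel_pl _ _ _ _).1 h
    cases h1
    obtain ⟨z, h3, _⟩ := (ih v y k h2).1
    exact ⟨⟨_, (rel_pl _ _ _ _).2 ⟨rfl, z, h3⟩, Or.inr ⟨k, le_rfl, rfl⟩⟩,
      ⟨_, (rel_pl _ _ _ _).2 ⟨rfl, z, h3⟩, Or.inr ⟨k, le_rfl, rfl⟩⟩⟩
  | hst a ih =>
    intro v w k h
    obtain ⟨h1, y, h2⟩ := (rel_st _ _ _ _).1 h
    cases h1
    obtain ⟨z, h3, _⟩ := (ih y v k h2).2
    exact ⟨⟨_, (rel_st _ _ _ _).2 ⟨rfl, z, h3⟩, Or.inr ⟨k, le_rfl, rfl⟩⟩,
      ⟨_, (rel_st _ _ _ _).2 ⟨rfl, z, h3⟩, Or.inr ⟨k, le_rfl, rfl⟩⟩⟩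

/-- The truncation theorem. -/
theorem truncate {L : Finset X} {N : ℕ} {q : Proj (FE X)} (hq : q ∈ EN L N)
    (e g : Proj (FE X)) (a : FE X) (h : e ⊓ P (a * (g : FE X)) ≤ q) :
    e ⊓ P (a * (tau L N g : FE X)) ≤ q := by
  set v : Proj (FE X) := e ⊓ P (a * (tau L N g : FE X)) with hv
  obtain ⟨w, hw, hC⟩ := (C_Q a).1 v (tau L N g) inf_le_right
  obtain ⟨z, hz, hz'⟩ := (G_path L a v w N hC).1
  have hzg : rel (G L) (g : FE X) z z := by
    rcases hz' with rfl | ⟨k', hk', rfl⟩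
    · exact G_none L _
    · exact G_complete L g w k' (hw.trans (tau_anti L hk' g))
  have h1 : rel (G L) (P (a * (g : FE X)) : FE X) (some (v, N)) (some (v, N)) := by
    rw [coe_P]
    exact (rel_pl _ _ _ _).2 ⟨rfl, z, (rel_mul _ _ _ _ _).2 ⟨z, hz, hzg⟩⟩
  have h2 : rel (G L) (e : FE X) (some (v, N)) (some (v, N)) :=
    G_complete L e v N (inf_le_left.trans (le_tau L N e))
  have h3 : rel (G L) ((e ⊓ P (a * (g : FE X)) : Proj (FE X)) : FE X)
      (some (v, N)) (some (v, N)) := by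
    rw [Proj.coe_inf]
    exact (rel_mul _ _ _ _ _).2 ⟨_, h2, h1⟩
  exact G_sound L N q hq v N le_rfl (rel_mono_proj h h3)

/-! ### Equalizers are finitely generated down-sets -/

theorem exists_EN_list {α : Type v} (ψ : α → Proj (FE X)) (u : α) (l : List (X × α)) :
    ∃ (L : Finset X) (N : ℕ), ψ u ∈ EN L N ∧ ∀ y ∈ l, ψ y.2 ∈ EN L N := by
  classical
  induction l with
  | nil =>
    obtain ⟨L, N, h⟩ := exists_EN (ψ u)
    exact ⟨L, N, h, by simp⟩
  | cons y l ih =>
    obtain ⟨L, N, h, h'⟩ := ih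
    obtain ⟨L2, N2, h2⟩ := exists_EN (ψ y.2)
    refine ⟨L ∪ L2, max N N2, EN_mono Finset.subset_union_left (le_max_left _ _) h, ?_⟩
    intro z hz
    rcases List.mem_cons.1 hz with rfl | hz
    · exact EN_mono Finset.subset_union_right (le_max_right _ _) h2
    · exact EN_mono Finset.subset_union_left (le_max_left _ _) (h' z hz)

theorem dom_tau {α : Type v} {φ ψ : α → Proj (FE X)} {L : Finset X} {N : ℕ}
    (g : Proj (FE X)) (l : List (X × α)) : ∀ (p : FE X) (u : α), ψ u ∈ EN L N →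
      (∀ y ∈ l, ψ y.2 ∈ EN L N) → Dom φ ψ (g : FE X) p u l →
      Dom φ ψ (tau L N g : FE X) p u l := by
  induction l with
  | nil =>
    intro p u hu _ h
    exact truncate hu _ _ _ h
  | cons y l ih =>
    intro p u hu hl h
    exact ⟨truncate hu _ _ _ h.1, ih _ _ (hl y List.mem_cons_self)
      (fun z hz => hl z (List.mem_cons_of_mem _ hz)) h.2⟩

/-- For `c, d` there is a finite set of projections equalized by `c, d` such that every
projection equalized by `c, d` is below one of them. -/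
theorem equalizer (c d : FE X) : ∃ F : Finset (Proj (FE X)),
    (∀ t ∈ F, c * (t : FE X) = d * (t : FE X)) ∧
    ∀ g : Proj (FE X), c * (g : FE X) = d * (g : FE X) → ∃ t ∈ F, g ≤ t := by
  classical
  by_cases hw : word c = word d
  · obtain ⟨u, l, rfl⟩ := exists_el c
    obtain ⟨u', l', rfl⟩ := exists_el d
    rw [word_el, word_el] at hw
    obtain ⟨m, h1, h2⟩ := exists_joint l l' hw u u'
    rw [← h1, ← h2]
    obtain ⟨L1, N1, ha, ha'⟩ := exists_EN_list (Prod.fst : Proj (FE X) × Proj (FE X) → _)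
      (u, u') m
    obtain ⟨L2, N2, hb, hb'⟩ := exists_EN_list (Prod.snd : Proj (FE X) × Proj (FE X) → _)
      (u, u') m
    set L := L1 ∪ L2 with hL
    set N := max N1 N2 with hN
    have e1 : EN L1 N1 ⊆ EN L N := EN_mono Finset.subset_union_left (le_max_left _ _)
    have e2 : EN L2 N2 ⊆ EN L N := EN_mono Finset.subset_union_right (le_max_right _ _)
    refine ⟨(EN L N).filter (fun t => el Prod.fst (u, u') m * (t : FE X) =
      el Prod.snd (u, u') m * (t : FE X)), fun t ht => (Finset.mem_filter.1 ht).2, ?_⟩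
    intro g hg
    refine ⟨tau L N g, Finset.mem_filter.2 ⟨tau_mem L N g, ?_⟩, le_tau L N g⟩
    set q : FE X := el Prod.fst (u, u') m with hq
    set q' : FE X := el Prod.snd (u, u') m with hq'
    have hq1 : (u : FE X) * q = q := head_mul_el Prod.fst (u, u') m
    have hq2 : (u' : FE X) * q' = q' := head_mul_el Prod.snd (u, u') m
    have hpp : len (u : FE X) = len (u' : FE X) := by simp
    have hPQ : (u : FE X) * (q * (g : FE X)) = (u' : FE X) * (q' * (g : FE X)) := by
      rw [← mul_assoc, ← mul_assoc, hq1, hq2, hg]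
    have hD1 : Dom Prod.fst Prod.snd (g : FE X) (u : FE X) (u, u') m :=
      dom_of_eq _ _ _ _ (u : FE X) (u' : FE X) (u, u') hpp u'.idem u.idem hPQ
    have hD2 : Dom Prod.snd Prod.fst (g : FE X) (u' : FE X) (u, u') m :=
      dom_of_eq _ _ _ _ (u' : FE X) (u : FE X) (u, u') hpp.symm u.idem u'.idem hPQ.symm
    have hE1 := dom_tau g m _ _ (e2 hb) (fun y hy => e2 (hb' y hy)) hD1
    have hE2 := dom_tau g m _ _ (e1 ha) (fun y hy => e1 (ha' y hy)) hD2
    have f1 := insert_meet Prod.fst Prod.snd _ m (u : FE X) (u, u') u.idem hE1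
    have f2 := insert_meet Prod.snd Prod.fst _ m (u' : FE X) (u, u') u'.idem hE2
    have hcomm : (fun a : Proj (FE X) × Proj (FE X) => a.2 ⊓ a.1) = fun a => a.1 ⊓ a.2 := by
      funext a
      exact inf_comm _ _
    rw [hcomm] at f2
    rw [T_coe] at f1 f2
    have hm := head_mul_el (fun a : Proj (FE X) × Proj (FE X) => a.1 ⊓ a.2) (u, u') m
    set m' : FE X := el (fun a : Proj (FE X) × Proj (FE X) => a.1 ⊓ a.2) (u, u') m with hm'
    rw [← hq, hq1] at f1
    rw [← hq', hq2] at f2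
    have g1 : (u : FE X) * m' = m' := by
      have h3 : ((u ⊓ u' : Proj (FE X)) : FE X) * m' = m' := hm
      rw [← h3, ← mul_assoc]
      congr 1
      rw [Proj.coe_inf, ← mul_assoc, u.idem]
    have g2 : (u' : FE X) * m' = m' := by
      have h3 : ((u ⊓ u' : Proj (FE X)) : FE X) * m' = m' := hm
      rw [← h3, ← mul_assoc]
      congr 1
      rw [Proj.coe_inf, u.comm u', ← mul_assoc, u'.idem]
    rw [g1] at f1
    rw [g2] at f2
    rw [f1, f2]
  · refine ⟨∅, by simp, ?_⟩
    intro g hg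
    exfalso
    apply hw
    have := congrArg word hg
    simpa using this

end Q36.EH.FE
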